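import Mathlib

/-!
# Networks of algebraic gates for matrix multiplication

Definitions only.
-/

open Finset

namespace Pool.Agent.Y633.MM

/-- The variables: the entries of the first and of the second matrix. -/
abbrev Var (m : ℕ) : Type := (Fin m × Fin m) ⊕ (Fin m × Fin m)

/-- A network with `size` gates, for two `m × m` matrices: gate `v` has `arity v` incoming wires,
the `a`-th one coming from `src v a`, which is an entry of one of the two matrices or a gate; the
gates are numbered so that wires between gates go from smaller to larger numbers; the gate
`out i k` gives the entry `(i, k)` of the result. -/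
structure Net (m : ℕ) : Type where
  size : ℕ
  arity : Fin size → ℕ
  src : (v : Fin size) → Fin (arity v) → Var m ⊕ Fin size
  acyclic : ∀ v a u, src v a = Sum.inr u → u < v
  out : Fin m → Fin m → Fin size

variable {m : ℕ}

/-- `P v` is the value of the gate `v` and `x` are the entries of the two matrices.  Every gate
outside `E` applies an algebraic function with coefficients in `F` to the values on its wires: its
value is algebraic over the ring generated by them over `F`.  Nothing is assumed about the gates
in `E`. -/
def Net.Computes (C : Net m) (F : Type) {L : Type} [Field F] [Field L] [Algebra F L]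
    (x : Var m → L) (P : Fin C.size → L) (E : Finset (Fin C.size)) : Prop :=
  ∀ v, v ∉ E → IsAlgebraic (Algebra.adjoin F (Set.range fun a => Sum.elim x P (C.src v a))) (P v)

/-- The output gates give the entries in the positions `V` of the product of the two matrices. -/
def Net.GivesProduct (C : Net m) {L : Type} [Field L] (x : Var m → L) (P : Fin C.size → L)
    (V : Finset (Fin m × Fin m)) : Prop :=
  ∀ p ∈ V, P (C.out p.1 p.2) = ∑ j, x (Sum.inl (p.1, j)) * x (Sum.inr (j, p.2))

/-- The total number of wires. -/
def Net.numWires (C : Net m) : ℕ := ∑ v, C.arity v

/-- The number of wires leaving gate `u` plus the number of entries in `V` which it gives. -/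
def Net.fanOut (C : Net m) (V : Finset (Fin m × Fin m)) (u : Fin C.size) : ℕ :=
  ∑ v, (univ.filter fun a => C.src v a = Sum.inr u).card +
    (V.filter fun p => C.out p.1 p.2 = u).card

/-- The gates outside `E` whose value is stored at time `τ`: they are computed at or before `τ`
and read by a gate that is computed after `τ`. -/
def Net.stored (C : Net m) (E : Finset (Fin C.size)) (time : Fin C.size → ℕ) (τ : ℕ) :
    Set (Fin C.size) :=
  {u | u ∉ E ∧ time u ≤ τ ∧ ∃ v a, C.src v a = Sum.inr u ∧ τ < time v}

open Classical in
/-- The largest number of values stored at time `τ` which are algebraically independent over `F`: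
the transcendence degree of the stored values. -/
noncomputable def Net.indep (C : Net m) (F : Type) {L : Type} [Field F] [Field L] [Algebra F L]
    (P : Fin C.size → L) (E : Finset (Fin C.size)) (time : Fin C.size → ℕ) (τ : ℕ) : ℕ :=
  (univ.filter fun Q : Finset (Fin C.size) => (∀ u ∈ Q, u ∈ C.stored E time τ) ∧
    AlgebraicIndependent F fun u : Q => P u).sup card

end Pool.Agent.Y633.MM
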