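import Mathlib
import Pool.Agent.Y633.GenK.Comb

/-! # Thresholds, costs of inputs, and sinks -/

open Finset

set_option linter.unusedSectionVars false

namespace Pool.Agent.Y633.MM

open Pool.Agent.Y633.Dep Pool.Agent.Y633.Wire Pool.Agent.Y633.Gen Pool.Agent.Y633.GenK

theorem mid_cost (c e h : ℕ) (Φ : ℕ → ℕ) : ∃ Y : ℕ, ∀ (n : ℕ) (C : Circuit n 1),
    C.numWires ≤ c * n → C.SharingDepthLE ∅ h →
    ∃ (x y : ℕ) (Rc : Finset (Fin C.size)) (cost : Fin n → ℕ), 1 ≤ x ∧ x ≤ Y ∧ Φ x ≤ y ∧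
      e * ∑ g, cost g ≤ h * n ∧ ∀ G : Finset (Fin n), ∃ ℓ : Fin C.size → ℕ, IsWt C G Rc ℓ ∧
          (∑ j ∈ univ.filter (fun j => j ∉ Rc ∧ 2 ≤ C.fanOut j), C.fanOut j * ℓ j ≤
            inWires C G * (2 * x) ^ h) ∧
          ∃ hi : ℕ, (Rc.filter fun v => ℓ v ≠ 0).card ≤ 1 + hi + ∑ g ∈ G, cost g ∧
            y * hi ≤ c * n := by
  classical
  obtain ⟨Y, hY⟩ := exists_thresh c e h (fun x => Φ x + x)
  refine ⟨Y, ?_⟩
  intro N C hwires hdepth
  obtain ⟨ρ, hρ, hρd⟩ := exists_rank C ∅ h hdepth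
  obtain ⟨X, x, y, hx1, hΦ, hyY, hXx, hwin⟩ := hY N 1 C ∅ ρ hρ hwires
  beta_reduce at hΦ
  obtain ⟨Rc, hRc⟩ : ∃ Rc, Rc = cutX C ∅ ρ X := ⟨_, rfl⟩
  obtain ⟨ℓa, hℓa⟩ := exists_wt C univ Rc
  choose ℓ₁ hℓ₁ using fun g : Fin N => exists_wt C {g} Rc
  obtain ⟨Win, hWin⟩ : ∃ Win : Finset (Fin C.size),
    Win = (range h).biUnion fun l => window C ρ l (X l) y := ⟨_, rfl⟩
  have htot : e * ∑ v ∈ Win, ℓa v ≤ h * N := by
    have h1 : ∑ v ∈ Win, ℓa v ≤ ∑ l ∈ range h, ∑ v ∈ window C ρ l (X l) y, ℓa v := by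
      rw [hWin]
      exact sum_biUnion_le' _ _ _
    calc e * ∑ v ∈ Win, ℓa v ≤ e * ∑ l ∈ range h, ∑ v ∈ window C ρ l (X l) y, ℓa v :=
          Nat.mul_le_mul_left _ h1
      _ = ∑ l ∈ range h, e * ∑ v ∈ window C ρ l (X l) y, ℓa v := by rw [mul_sum]
      _ ≤ ∑ _l ∈ range h, N := by
          apply sum_le_sum
          intro l hl
          exact hwin ℓa (by rw [← hRc]; exact hℓa) l (mem_range.1 hl)
      _ = h * N := by rw [sum_const, card_range, smul_eq_mul]
  refine ⟨x, y, Rc, fun g => ∑ v ∈ Win, ℓ₁ g v, hx1, by omega, by omega, ?_, ?_⟩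
  · refine le_trans (le_of_eq ?_) htot
    congr 1
    rw [sum_comm]
    apply sum_congr rfl
    intro v _
    exact (wt_add C univ Rc ℓa hℓa ℓ₁ hℓ₁ (v.val + 1) v (Nat.lt_succ_self _)).symm
  intro G
  obtain ⟨ℓ, hℓ⟩ := exists_wt C G Rc
  have hℓsum : ∀ v, ℓ v = ∑ g ∈ G, ℓ₁ g v := fun v =>
    wt_add C G Rc ℓ hℓ ℓ₁ hℓ₁ (v.val + 1) v (Nat.lt_succ_self _)
  refine ⟨ℓ, hℓ, ?_, (univ.filter fun v => y < C.fanOut v).card, ?_, ?_⟩
  · refine flow_shared C ∅ ρ hρ G Rc (empty_subset _) ℓ hℓ x h hx1 ?_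
    intro j hj _ h2
    have h3 := hρd j (notMem_empty _)
    rw [if_pos h2] at h3
    rw [hRc, mem_cutX, not_or] at hj
    have h4 : C.fanOut j ≤ X (ρ j) := by
      by_contra hcon
      exact hj.2 ⟨h2, by omega⟩
    exact ⟨h4.trans (hXx _ (by omega)), by omega⟩
  · have hsub : (Rc.filter fun v => ℓ v ≠ 0) ⊆
        ({C.out} ∪ univ.filter fun v => y < C.fanOut v) ∪ (Win.filter fun v => ℓ v ≠ 0) := by
      intro v hv
      obtain ⟨hv1, hv2⟩ := mem_filter.1 hv
      rw [hRc, mem_cutX] at hv1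
      simp only [mem_union, mem_singleton, mem_filter, mem_univ, true_and]
      rcases hv1 with (h1 | h1) | h1
      · exact Or.inl (Or.inl h1)
      · exact absurd h1 (notMem_empty _)
      · by_cases h5 : y < C.fanOut v
        · exact Or.inl (Or.inr h5)
        · refine Or.inr ⟨?_, hv2⟩
          have h3 := hρd v (notMem_empty _)
          rw [if_pos h1.1] at h3
          rw [hWin, mem_biUnion]
          exact ⟨ρ v, mem_range.2 (by omega), mem_window.2 ⟨h1.1, rfl, h1.2, by omega⟩⟩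
    have h1 : (Win.filter fun v => ℓ v ≠ 0).card ≤ ∑ g ∈ G, ∑ v ∈ Win, ℓ₁ g v := by
      calc (Win.filter fun v => ℓ v ≠ 0).card = ∑ v ∈ Win, if ℓ v ≠ 0 then 1 else 0 := by
            rw [card_filter]
        _ ≤ ∑ v ∈ Win, ℓ v := by
            apply sum_le_sum
            intro v _
            split_ifs <;> omega
        _ = ∑ v ∈ Win, ∑ g ∈ G, ℓ₁ g v := by
            apply sum_congr rfl
            intro v _
            exact hℓsum v
        _ = _ := sum_comm
    refine (card_le_card hsub).trans ((card_union_le _ _).trans ?_)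
    refine Nat.add_le_add ?_ h1
    refine (card_union_le _ _).trans ?_
    rw [card_singleton]
  · rw [mul_comm]
    exact (high_le C y).trans hwires

/-- The total weight of the sinks. -/
lemma sink_flow {n q : ℕ} (C : Circuit n q) (B : Finset (Fin n)) (R : Finset (Fin C.size))
    (ℓ : Fin C.size → ℕ) (hℓ : IsWt C B R ℓ) :
    ∑ v ∈ univ.filter (fun v => C.fanOut v = 0), ℓ v ≤ inWires C B +
      ∑ j ∈ univ.filter (fun j => j ∉ R ∧ 2 ≤ C.fanOut j), C.fanOut j * ℓ j := by
  classical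
  have h1 : ∑ i, ℓ i = inWires C B + ∑ j ∈ Rᶜ, C.fanOut j * ℓ j := by
    have h2 : ∀ i, ℓ i = (∑ a, swt B univ (fun _ => 0) (C.src i a)) +
        ∑ a, ∑ j ∈ Rᶜ, if C.src i a = Sum.inr j then ℓ j else 0 := by
      intro i
      rw [hℓ i, ← sum_add_distrib]
      apply sum_congr rfl
      intro a _
      rcases hs : C.src i a with (i' | i') | j
      · simp [swt]
      · simp [swt]
      · simp only [swt, mem_univ, if_true, zero_add]
        by_cases hj : j ∈ R
        · rw [if_pos hj]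
          symm
          apply sum_eq_zero
          intro j' hj'
          rw [if_neg]
          intro h
          rw [Sum.inr.injEq] at h
          rw [← h] at hj'
          exact (mem_compl.1 hj') hj
        · rw [if_neg hj, sum_eq_single j]
          · rw [if_pos rfl]
          · intro j' _ hne
            rw [if_neg]
            intro h
            exact hne (Sum.inr_injective h).symm
          · intro h
            exact absurd (mem_compl.2 hj) h
    rw [sum_congr rfl fun i _ => h2 i, sum_add_distrib, inWires]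
    congr 1
    have h3 : ∀ i, (∑ a, ∑ j ∈ Rᶜ, if C.src i a = Sum.inr j then ℓ j else 0) =
        ∑ j ∈ Rᶜ, (univ.filter fun a => C.src i a = Sum.inr j).card * ℓ j := by
      intro i
      rw [sum_comm]
      apply sum_congr rfl
      intro j _
      rw [← sum_filter, sum_const, smul_eq_mul]
    rw [sum_congr rfl fun i _ => h3 i, sum_comm]
    apply sum_congr rfl
    intro j _
    rw [Circuit.fanOut, sum_mul]
  have h2 : ∑ j ∈ Rᶜ, C.fanOut j * ℓ j ≤
      ∑ j ∈ univ.filter (fun j => j ∉ R ∧ 2 ≤ C.fanOut j), C.fanOut j * ℓ j +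
        ∑ j ∈ univ.filter (fun j => C.fanOut j ≠ 0), ℓ j := by
    have e1 : ∑ j ∈ univ.filter (fun j => j ∉ R ∧ 2 ≤ C.fanOut j), C.fanOut j * ℓ j =
        ∑ j ∈ Rᶜ, if 2 ≤ C.fanOut j then C.fanOut j * ℓ j else 0 := by
      rw [← sum_filter]
      apply sum_congr _ (fun _ _ => rfl)
      ext j
      simp
    have e2 : ∑ j ∈ Rᶜ, (if C.fanOut j ≠ 0 then ℓ j else 0) ≤
        ∑ j ∈ univ.filter (fun j => C.fanOut j ≠ 0), ℓ j := by
      rw [← sum_filter]
      apply sum_le_sum_of_subset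
      intro j hj
      exact mem_filter.2 ⟨mem_univ _, (mem_filter.1 hj).2⟩
    rw [e1]
    refine le_trans ?_ (Nat.add_le_add_left e2 _)
    rw [← sum_add_distrib]
    apply sum_le_sum
    intro j _
    by_cases h3 : 2 ≤ C.fanOut j
    · rw [if_pos h3]
      exact Nat.le_add_right _ _
    · rw [if_neg h3, zero_add]
      by_cases h4 : C.fanOut j = 0
      · rw [h4, zero_mul]
        exact Nat.zero_le _
      · have h5 : C.fanOut j = 1 := by omega
        rw [if_pos h4, h5, one_mul]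
  have h3 : ∑ i, ℓ i = ∑ v ∈ univ.filter (fun v => C.fanOut v = 0), ℓ v +
      ∑ v ∈ univ.filter (fun v => C.fanOut v ≠ 0), ℓ v :=
    (sum_filter_add_sum_filter_not univ _ _).symm
  omega

section

variable {n q : ℕ} {C : Circuit n q} {E : Finset (Fin C.size)} {time wt : Fin C.size → ℕ}
  {A : Finset ℕ} {T : ℕ → ℕ} {W Q : ℕ}

/-- The gates reached from a part `G'` of the live inputs `G`. -/
theorem reached_part (htime : ∀ i a j, C.src i a = Sum.inr j → j ∉ E → time j < time i)
    (hT : ∀ β ∈ A, cumW time wt (T β) / W = β)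
    (R : Finset (Fin C.size)) (hER : E ⊆ R)
    (hcut : ∀ i a j, C.src i a = Sum.inr j → j ∉ E → Same time A T j i)
    (G G' : Finset (Fin n)) (hGG : G' ⊆ G) (Rc : Finset (Fin C.size)) (ℓ : Fin C.size → ℕ)
    (hℓ : IsWt (midC C (MidK C time wt A T W Q) (KeepK C E time wt A T W Q)) G Rc ℓ)
    (hRc : ∀ v ∈ Rc, ℓ v ≠ 0 → v ∈ R) (W₂ : ℕ) (P : Finset ℕ)
    (hG1 : ∀ v a g, C.src v a = Sum.inl (Sum.inl g) → g ∈ G' → BigP time A T Q v →
      ¬ Lower time wt A T W v)
    (hG2 : ∀ v a g, C.src v a = Sum.inl (Sum.inl g) → g ∈ G' → ¬ BigP time A T Q v →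
      cumL time wt (time v) / W₂ ∈ P) (v : Fin C.size) (hv : Reached C G' R v) :
    LivePK C time wt A T W Q W₂ P ℓ v := by
  induction hv with
  | input i a g h hg =>
    by_cases hbig : BigP time A T Q i
    · have hlow := hG1 i a g h hg hbig
      by_cases hup : Upper time wt A T W i
      · exact Or.inl ⟨hbig, hup⟩
      · refine Or.inr (Or.inr ⟨⟨hbig, hup, hlow⟩, ?_⟩)
        have hgG : g ∈ G := hGG hg
        have h1 : 1 ≤ ℓ i := by
          rw [hℓ i]
          calc 1 = swt G Rc ℓ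
                ((midC C (MidK C time wt A T W Q) (KeepK C E time wt A T W Q)).src i a) := by
                rw [(midC_inl C _ _ i a g).2 ⟨h, hbig, hup, hlow⟩]
                simp only [swt, hgG, if_true]
            _ ≤ _ := single_le_sum (f := fun a => swt G Rc ℓ
                ((midC C (MidK C time wt A T W Q) (KeepK C E time wt A T W Q)).src i a))
                (fun _ _ => Nat.zero_le _) (mem_univ a)
        omega
    · exact Or.inr (Or.inl ⟨hbig, i, fun β _ => Iff.rfl, hG2 i a g h hg hbig⟩)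
  | gate i a u h hu hr ih =>
    obtain ⟨hlt, hsame⟩ := GenK.same_of_wire htime R hER hcut h hu
    rcases ih with ⟨h1, h2⟩ | ⟨h1, j, h2, h3⟩ | ⟨h1, h2⟩
    · exact Or.inl ⟨hsame.big h1, upper_step hT h2 hsame hlt.le⟩
    · exact Or.inr (Or.inl ⟨fun h => h1 (hsame.symm.big h), j, h2.trans hsame, h3⟩)
    · have hbig : BigP time A T Q i := hsame.big h1.1
      have hlow : ¬ Lower time wt A T W i := fun h =>
        h1.2.2 (lower_step hT h hsame hlt.le)
      by_cases hup : Upper time wt A T W i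
      · exact Or.inl ⟨hbig, hup⟩
      · refine Or.inr (Or.inr ⟨⟨hbig, hup, hlow⟩, ?_⟩)
        have huRc : u ∉ Rc := fun h => hu (hRc u h h2)
        have hk : KeepK C E time wt A T W Q u i :=
          ⟨fun h => hu (hER h), h1, ⟨hbig, hup, hlow⟩, hsame⟩
        have h1 : ℓ u ≤ ℓ i := by
          rw [hℓ i]
          calc ℓ u = swt G Rc ℓ
                ((midC C (MidK C time wt A T W Q) (KeepK C E time wt A T W Q)).src i a) := by
                rw [(midC_inr C _ _ i a u).2 ⟨h, hk⟩]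
                simp only [swt, huRc, if_false]
            _ ≤ _ := single_le_sum (f := fun a => swt G Rc ℓ
                ((midC C (MidK C time wt A T W Q) (KeepK C E time wt A T W Q)).src i a))
                (fun _ _ => Nat.zero_le _) (mem_univ a)
        omega

end

/-- Reaching from a union. -/
lemma reached_biUnion {n q m : ℕ} {C : Circuit n q} {I : Finset (Fin m)}
    {H : Fin m → Finset (Fin n)} {R : Finset (Fin C.size)} {v : Fin C.size}
    (h : Reached C (I.biUnion H) R v) : ∃ i ∈ I, Reached C (H i) R v := by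
  induction h with
  | input v a g h hg =>
    obtain ⟨i, hi, hgi⟩ := mem_biUnion.1 hg
    exact ⟨i, hi, Reached.input v a g h hgi⟩
  | gate v a u h hu hr ih =>
    obtain ⟨i, hi, hgi⟩ := ih
    exact ⟨i, hi, Reached.gate v a u h hu hgi⟩

end Pool.Agent.Y633.MM
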