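import Mathlib
import Pool.Agent.Y633.MM.Mid

/-! # The choice of the live inputs in each row -/

open Finset

set_option linter.unusedSectionVars false

namespace Pool.Agent.Y633.MM

open Pool.Agent.Y633.Dep Pool.Agent.Y633.Wire Pool.Agent.Y633.Gen Pool.Agent.Y633.GenK

lemma sum_pairs_le {n m : ℕ} (ρ : Fin m → Fin m → Fin n)
    (hρ : ∀ i j i' j', ρ i j = ρ i' j' → i = i' ∧ j = j') (f : Fin n → ℕ) :
    ∑ i, ∑ j, f (ρ i j) ≤ ∑ g, f g := by
  classical
  have h1 : ∑ i, ∑ j, f (ρ i j) = ∑ p : Fin m × Fin m, f (ρ p.1 p.2) := by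
    rw [Fintype.sum_prod_type]
  have h2 : ∑ g ∈ (univ : Finset (Fin m × Fin m)).image (fun p => ρ p.1 p.2), f g =
      ∑ p : Fin m × Fin m, f (ρ p.1 p.2) := by
    apply sum_image
    intro p _ p' _ h
    obtain ⟨h3, h4⟩ := hρ _ _ _ _ h
    exact Prod.ext h3 h4
  rw [h1, ← h2]
  exact sum_le_sum_of_subset (subset_univ _)

open Classical in
lemma card_read_le {n q : ℕ} (C : Circuit n q) (Lc : Finset (Fin C.size)) :
    (univ.filter fun g : Fin n => ∃ v ∈ Lc, ∃ a, C.src v a = Sum.inl (Sum.inl g)).card ≤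
      ∑ v ∈ Lc, C.arity v := by
  have h1 : (univ.filter fun g : Fin n => ∃ v ∈ Lc, ∃ a, C.src v a = Sum.inl (Sum.inl g)) ⊆
      Lc.biUnion fun v => univ.filter fun g : Fin n =>
      ∃ a, C.src v a = Sum.inl (Sum.inl g) := by
    intro g hg
    obtain ⟨_, v, hv, h3⟩ := mem_filter.1 hg
    rw [mem_biUnion]
    exact ⟨v, hv, mem_filter.2 ⟨mem_univ _, h3⟩⟩
  refine (card_le_card h1).trans (card_biUnion_le.trans ?_)
  apply sum_le_sum
  intro v _
  let f : Fin (C.arity v) → Option (Fin n) := fun a =>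
    Sum.elim (Sum.elim (fun i => some i) (fun _ => none)) (fun _ => none) (C.src v a)
  have h2 : (univ.filter fun g : Fin n => ∃ a, C.src v a = Sum.inl (Sum.inl g)).image some ⊆
      univ.image f := by
    intro o ho
    rw [mem_image] at ho
    obtain ⟨g, hg, rfl⟩ := ho
    obtain ⟨a, ha⟩ := (mem_filter.1 hg).2
    rw [mem_image]
    exact ⟨a, mem_univ _, by simp only [f, ha, Sum.elim_inl]⟩
  have h3 := card_le_card h2
  rw [card_image_of_injective _ (Option.some_injective _)] at h3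
  refine h3.trans (card_image_le.trans ?_)
  simp

theorem exists_rows {n q m : ℕ} (C : Circuit n q) (r b n₁ : ℕ) (ρ : Fin m → Fin m → Fin n)
    (hρ : ∀ i j i' j', ρ i j = ρ i' j' → i = i' ∧ j = j') (γ : Fin C.size → ℕ)
    (hγ : ∀ v, γ v < b) (Lc Sm : Finset (Fin C.size)) (hn₁ : 1 ≤ n₁)
    (hm : 2 * (2 ^ b * n₁) ≤ m) (hr : 128 * C.numWires ≤ (r + 1) * (m * m))
    (hL : 192 * ∑ v ∈ Lc, C.arity v ≤ m * m) :
    ∃ (Good : Finset (Fin m)) (P : Fin m → Finset ℕ) (G₀ : Fin m → Finset (Fin m)),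
      32 * Goodᶜ.card ≤ m ∧ (∀ i, P i ⊆ range b ∧ (P i).card ≤ r) ∧
      (∀ i ∈ Good, n₁ ≤ (G₀ i).card) ∧
      ∀ i ∈ Good, ∀ j ∈ G₀ i, inFan C (ρ i j) ≤ r ∧
        (∀ v ∈ Lc, ∀ a, C.src v a ≠ Sum.inl (Sum.inl (ρ i j))) ∧
        ∀ v ∈ Sm, ∀ a, C.src v a = Sum.inl (Sum.inl (ρ i j)) → γ v ∈ P i := by
  classical
  have hm1 : 1 ≤ m := by
    have : 1 ≤ 2 ^ b * n₁ := Nat.mul_pos (Nat.pos_of_ne_zero (by positivity)) hn₁
    omega
  let Bad1 : Fin m → Finset (Fin m) := fun i => univ.filter fun j => r < inFan C (ρ i j)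
  let Bad2 : Fin m → Finset (Fin m) := fun i =>
    univ.filter fun j => ∃ v ∈ Lc, ∃ a, C.src v a = Sum.inl (Sum.inl (ρ i j))
  let Good : Finset (Fin m) := univ.filter fun i => 2 * ((Bad1 i).card + (Bad2 i).card) ≤ m
  obtain ⟨X1, hX1⟩ : ∃ X1, X1 = ∑ i, (Bad1 i).card := ⟨_, rfl⟩
  obtain ⟨X2, hX2⟩ : ∃ X2, X2 = ∑ i, (Bad2 i).card := ⟨_, rfl⟩
  have hB1 : 128 * X1 ≤ m * m := by
    have h1 : (r + 1) * X1 ≤ C.numWires := by
      calc (r + 1) * X1 = ∑ i, ∑ _j ∈ Bad1 i, (r + 1) := by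
            rw [hX1, mul_sum]
            apply sum_congr rfl
            intro i _
            rw [sum_const, smul_eq_mul, mul_comm]
        _ ≤ ∑ i, ∑ j, inFan C (ρ i j) := by
            apply sum_le_sum
            intro i _
            refine le_trans (sum_le_sum (g := fun j => inFan C (ρ i j)) ?_)
              (sum_le_sum_of_subset (subset_univ _))
            intro j hj
            exact (mem_filter.1 hj).2
        _ ≤ ∑ g, inFan C g := sum_pairs_le ρ hρ _
        _ ≤ C.numWires := sum_inFan_le C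
    have h2 : (r + 1) * (128 * X1) ≤ (r + 1) * (m * m) := by
      calc (r + 1) * (128 * X1) = 128 * ((r + 1) * X1) := by ring
        _ ≤ 128 * C.numWires := Nat.mul_le_mul_left _ h1
        _ ≤ _ := hr
    exact Nat.le_of_mul_le_mul_left h2 (Nat.succ_pos r)
  have hB2 : 192 * X2 ≤ m * m := by
    have h1 : X2 ≤ ∑ v ∈ Lc, C.arity v := by
      refine le_trans ?_ (card_read_le C Lc)
      have h2 : X2 = ∑ i, ∑ j, if (∃ v ∈ Lc, ∃ a, C.src v a = Sum.inl (Sum.inl (ρ i j)))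
          then 1 else 0 := by
        rw [hX2]
        apply sum_congr rfl
        intro i _
        rw [card_filter]
      rw [h2]
      refine (sum_pairs_le ρ hρ (fun g => if (∃ v ∈ Lc, ∃ a,
        C.src v a = Sum.inl (Sum.inl g)) then 1 else 0)).trans ?_
      rw [← card_filter]
    omega
  have hGood : 32 * Goodᶜ.card ≤ m := by
    have h1 : m * Goodᶜ.card ≤ 2 * (X1 + X2) := by
      calc m * Goodᶜ.card = ∑ _i ∈ Goodᶜ, m := by rw [sum_const, smul_eq_mul, mul_comm]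
        _ ≤ ∑ i ∈ Goodᶜ, 2 * ((Bad1 i).card + (Bad2 i).card) := by
            apply sum_le_sum
            intro i hi
            rw [mem_compl] at hi
            by_contra hcon
            exact hi (mem_filter.2 ⟨mem_univ _, by omega⟩)
        _ ≤ ∑ i, 2 * ((Bad1 i).card + (Bad2 i).card) :=
            sum_le_sum_of_subset (subset_univ _)
        _ = 2 * (X1 + X2) := by rw [← mul_sum, sum_add_distrib, hX1, hX2]
    have h2 : m * (32 * Goodᶜ.card) ≤ m * m := by
      calc m * (32 * Goodᶜ.card) = 32 * (m * Goodᶜ.card) := by ring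
        _ ≤ 32 * (2 * (X1 + X2)) := Nat.mul_le_mul_left _ h1
        _ ≤ m * m := by omega
    exact Nat.le_of_mul_le_mul_left h2 hm1
  have hrow : ∀ i, ∃ (P : Finset ℕ) (G₀ : Finset (Fin m)), (P ⊆ range b ∧ P.card ≤ r) ∧
      (i ∈ Good → n₁ ≤ G₀.card ∧ ∀ j ∈ G₀, inFan C (ρ i j) ≤ r ∧
        (∀ v ∈ Lc, ∀ a, C.src v a ≠ Sum.inl (Sum.inl (ρ i j))) ∧
        ∀ v ∈ Sm, ∀ a, C.src v a = Sum.inl (Sum.inl (ρ i j)) → γ v ∈ P) := by
    intro i
    by_cases hi : i ∈ Good
    · have hi' := (mem_filter.1 hi).2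
      let Elig : Finset (Fin m) := univ.filter fun j => j ∉ Bad1 i ∧ j ∉ Bad2 i
      have hE : m ≤ Elig.card + ((Bad1 i).card + (Bad2 i).card) := by
        have h1 : (univ : Finset (Fin m)) ⊆ Elig ∪ (Bad1 i ∪ Bad2 i) := by
          intro j _
          rw [mem_union, mem_union]
          by_cases h1 : j ∈ Bad1 i
          · exact Or.inr (Or.inl h1)
          · by_cases h2 : j ∈ Bad2 i
            · exact Or.inr (Or.inr h2)
            · exact Or.inl (mem_filter.2 ⟨mem_univ _, h1, h2⟩)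
        have h2 := card_le_card h1
        rw [card_univ, Fintype.card_fin] at h2
        exact h2.trans ((card_union_le _ _).trans (Nat.add_le_add_left (card_union_le _ _) _))
      have hElig : 2 ^ b * n₁ ≤ Elig.card := by omega
      let code : Fin m → Finset ℕ := fun j =>
        (Sm.filter fun v => ∃ a, C.src v a = Sum.inl (Sum.inl (ρ i j))).image γ
      obtain ⟨Pset, hPs, hfib⟩ := exists_le_card_fiber_of_mul_le_card_of_maps_to
        (s := Elig) (t := (range b).powerset) (f := code) (n := n₁)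
        (by
          intro j _
          rw [mem_powerset]
          intro x hx
          simp only [code, mem_image] at hx
          obtain ⟨v, _, rfl⟩ := hx
          exact mem_range.2 (hγ v))
        ⟨∅, by simp⟩ (by rw [card_powerset, card_range]; exact hElig)
      have hmem : ∀ j ∈ Elig, inFan C (ρ i j) ≤ r := by
        intro j hj
        by_contra hcon
        exact (mem_filter.1 hj).2.1 (mem_filter.2 ⟨mem_univ _, by omega⟩)
      refine ⟨Pset, Elig.filter fun j => code j = Pset, ⟨mem_powerset.1 hPs, ?_⟩,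
        fun _ => ⟨hfib, ?_⟩⟩
      · have hne : (Elig.filter fun j => code j = Pset).Nonempty := card_pos.1 (by omega)
        obtain ⟨j, hj⟩ := hne
        obtain ⟨hj1, hj2⟩ := mem_filter.1 hj
        rw [← hj2]
        refine card_image_le.trans (le_trans ?_ (hmem j hj1))
        apply card_reading_le
        intro v hv
        exact (mem_filter.1 hv).2
      · intro j hj
        obtain ⟨hj1, hj2⟩ := mem_filter.1 hj
        refine ⟨hmem j hj1, ?_, ?_⟩
        · intro v hv a ha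
          exact (mem_filter.1 hj1).2.2 (mem_filter.2 ⟨mem_univ _, v, hv, a, ha⟩)
        · intro v hv a ha
          rw [← hj2]
          simp only [code, mem_image]
          exact ⟨v, mem_filter.2 ⟨hv, a, ha⟩, rfl⟩
    · exact ⟨∅, ∅, ⟨by simp, by simp⟩, fun h => absurd h hi⟩
  choose P G₀ h1 h2 using hrow
  exact ⟨Good, P, G₀, hGood, h1, fun i hi => (h2 i hi).1, fun i hi => (h2 i hi).2⟩

/-- A balanced choice of small total cost. -/
theorem exists_balanced {n m : ℕ} (ρ : Fin m → Fin m → Fin n)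
    (hρ : ∀ i j i' j', ρ i j = ρ i' j' → i = i' ∧ j = j') (cost : Fin n → ℕ)
    (Good : Finset (Fin m)) (G₀ : Fin m → Finset (Fin m)) (n₁ g₁ : ℕ)
    (hn₁ : ∀ i ∈ Good, n₁ ≤ (G₀ i).card) (hg : 2 * g₁ ≤ n₁) :
    ∃ G : Fin m → Finset (Fin m), (∀ i ∈ Good, G i ⊆ G₀ i ∧ (G i).card = g₁) ∧
      n₁ * ∑ i ∈ Good, ∑ j ∈ G i, cost (ρ i j) ≤ 2 * g₁ * ∑ g, cost g := by
  classical
  have h1 : ∀ i, ∃ G : Finset (Fin m), i ∈ Good → (G ⊆ G₀ i ∧ G.card = g₁) ∧
      n₁ * ∑ j ∈ G, cost (ρ i j) ≤ 2 * g₁ * ∑ j ∈ G₀ i, cost (ρ i j) := by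
    intro i
    by_cases hi : i ∈ Good
    · obtain ⟨G, hG1, hG2, hG3⟩ := exists_cheap (G₀ i) (fun j => cost (ρ i j)) _ g₁ le_rfl
        (hg.trans (hn₁ i hi))
      refine ⟨G, fun _ => ⟨⟨hG1, hG2⟩, le_trans ?_ hG3⟩⟩
      exact Nat.mul_le_mul_right _ (hn₁ i hi)
    · exact ⟨∅, fun h => absurd h hi⟩
  choose G hG using h1
  refine ⟨G, fun i hi => (hG i hi).1, ?_⟩
  calc n₁ * ∑ i ∈ Good, ∑ j ∈ G i, cost (ρ i j)
      = ∑ i ∈ Good, n₁ * ∑ j ∈ G i, cost (ρ i j) := by rw [mul_sum]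
    _ ≤ ∑ i ∈ Good, 2 * g₁ * ∑ j ∈ G₀ i, cost (ρ i j) := sum_le_sum fun i hi => (hG i hi).2
    _ = 2 * g₁ * ∑ i ∈ Good, ∑ j ∈ G₀ i, cost (ρ i j) := by rw [mul_sum]
    _ ≤ 2 * g₁ * ∑ i, ∑ j, cost (ρ i j) := by
        apply Nat.mul_le_mul_left
        refine le_trans (sum_le_sum (g := fun i => ∑ j, cost (ρ i j)) fun i _ =>
          sum_le_sum_of_subset (subset_univ _)) (sum_le_sum_of_subset (subset_univ _))
    _ ≤ 2 * g₁ * ∑ g, cost g := Nat.mul_le_mul_left _ (sum_pairs_le ρ hρ _)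

end Pool.Agent.Y633.MM
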