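import Mathlib
import Pool.Agent.Y633.MM.Side

/-! # Two sides: counting the outputs in the small pieces -/

open Finset

set_option linter.unusedSectionVars false

namespace Pool.Agent.Y633.MM

open Pool.Agent.Y633.Dep Pool.Agent.Y633.Wire Pool.Agent.Y633.Gen Pool.Agent.Y633.GenK
open Pool.Agent.Y633.Lay

section

variable {s : ℕ} {time wt : Fin s → ℕ} {A : Finset ℕ} {T : ℕ → ℕ} {W Q : ℕ}

lemma near (W₂ : ℕ) (hW : 1 ≤ W) (hW₂ : (Q + 1) * W ≤ W₂)
    (hT : ∀ β ∈ A, cumW time wt (T β) / W = β) {v j : Fin s} (hb : ¬ BigP time A T Q v)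
    (hs : Same time A T j v) :
    cumL time wt (time j) / W₂ ≤ cumL time wt (time v) / W₂ + 1 ∧
      cumL time wt (time v) / W₂ ≤ cumL time wt (time j) / W₂ + 1 := by
  have hQW : 1 ≤ (Q + 1) * W := Nat.mul_pos (Nat.succ_pos Q) hW
  have hW₂pos : 1 ≤ W₂ := by omega
  unfold BigP at hb
  push Not at hb
  obtain ⟨β, hβ, β', hβ', h1, h2, h3⟩ := hb
  have hbb := bucket_bounds hW (hT β hβ)
  have hbb' := bucket_bounds hW (hT β' hβ')
  have h4 := (hs β hβ).2 h1
  have h5 : time j ≤ T β' := by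
    by_contra hcon
    push Not at hcon
    have := (hs β' hβ').1 hcon
    omega
  have h6 : (β' + 1) * W ≤ β * W + (Q + 1) * W := by
    rw [← add_mul]
    exact Nat.mul_le_mul_right _ (by omega)
  have e1 := cumW_le_cumL time wt h1
  have e2 := cumL_le_cumW time wt h2
  have e3 := cumW_le_cumL time wt h4
  have e4 := cumL_le_cumW time wt h5
  obtain ⟨a, ha⟩ : ∃ a, a = cumL time wt (time j) := ⟨_, rfl⟩
  obtain ⟨a', ha'⟩ : ∃ a', a' = cumL time wt (time v) := ⟨_, rfl⟩
  rw [← ha] at e3 e4 ⊢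
  rw [← ha'] at e1 e2 ⊢
  constructor
  · rw [← Nat.add_div_right _ (by omega)]
    exact Nat.div_le_div_right (by omega)
  · rw [← Nat.add_div_right _ (by omega)]
    exact Nat.div_le_div_right (by omega)

end

lemma amgm {h u s a b : ℕ} (h1 : h ≤ u) (h2 : h ≤ a * b) (hu : u ≤ s * s) :
    2 * h ≤ s * (a + b) := by
  have h3 : h * h ≤ (s * s) * (a * b) := Nat.mul_le_mul (h1.trans hu) h2
  have h4 : 4 * (a * b) ≤ (a + b) * (a + b) := by nlinarith [sq_nonneg ((a : ℤ) - b), four_mul_le_sq_add a b]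
  have h5 : (2 * h) * (2 * h) ≤ (s * (a + b)) * (s * (a + b)) := by
    calc (2 * h) * (2 * h) = 4 * (h * h) := by ring
      _ ≤ 4 * ((s * s) * (a * b)) := Nat.mul_le_mul_left _ h3
      _ = (s * s) * (4 * (a * b)) := by ring
      _ ≤ (s * s) * ((a + b) * (a + b)) := Nat.mul_le_mul_left _ h4
      _ = (s * (a + b)) * (s * (a + b)) := by ring
  exact Nat.mul_self_le_mul_self_iff.1 h5

/-- The indices whose code is close to the window `w`. -/
def nearSet {m : ℕ} (P : Fin m → Finset ℕ) (w : ℕ) : Finset (Fin m) :=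
  univ.filter fun i => ∃ p ∈ P i, w ≤ p + 1 ∧ p ≤ w + 1

lemma sum_nearSet {m r : ℕ} (P : Fin m → Finset ℕ) (hP : ∀ i, (P i).card ≤ r) (b : ℕ) :
    ∑ w ∈ range b, (nearSet P w).card ≤ 3 * r * m := by
  classical
  have h1 : ∑ w ∈ range b, (nearSet P w).card =
      ∑ i : Fin m, ((range b).filter fun w => ∃ p ∈ P i, w ≤ p + 1 ∧ p ≤ w + 1).card := by
    simp only [nearSet, card_filter]
    exact sum_comm
  rw [h1]
  calc ∑ i : Fin m, ((range b).filter fun w => ∃ p ∈ P i, w ≤ p + 1 ∧ p ≤ w + 1).card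
      ≤ ∑ _i : Fin m, 3 * r := by
        apply sum_le_sum
        intro i _
        have h2 : ((range b).filter fun w => ∃ p ∈ P i, w ≤ p + 1 ∧ p ≤ w + 1) ⊆
            (P i).biUnion fun p => {p - 1, p, p + 1} := by
          intro w hw
          obtain ⟨_, p, hp, h3, h4⟩ := mem_filter.1 hw
          rw [mem_biUnion]
          refine ⟨p, hp, ?_⟩
          simp only [mem_insert, mem_singleton]
          omega
        refine (card_le_card h2).trans (card_biUnion_le.trans ?_)
        calc ∑ p ∈ P i, ({p - 1, p, p + 1} : Finset ℕ).card ≤ ∑ _p ∈ P i, 3 :=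
              sum_le_sum fun p _ => card_le_three
          _ = 3 * (P i).card := by rw [sum_const, smul_eq_mul, mul_comm]
          _ ≤ 3 * r := Nat.mul_le_mul_left _ (hP i)
    _ = 3 * r * m := by rw [sum_const, smul_eq_mul, card_univ, Fintype.card_fin, mul_comm]

theorem two_sides {m r b U s : ℕ} (P P' : Fin m → Finset ℕ) (hP : ∀ i, (P i).card ≤ r)
    (hP' : ∀ i, (P' i).card ≤ r) (H : Finset (Fin m × Fin m)) (γ : Fin m × Fin m → ℕ)
    (hγ : ∀ p, γ p < b) (h1 : ∀ p ∈ H, p.1 ∈ nearSet P (γ p)) (h2 : ∀ p ∈ H, p.2 ∈ nearSet P' (γ p))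
    (hU : ∀ w, (H.filter fun p => γ p = w).card ≤ U) (hs : U ≤ s * s) :
    H.card ≤ 3 * r * m * s := by
  classical
  have h3 : H.card = ∑ w ∈ range b, (H.filter fun p => γ p = w).card :=
    card_eq_sum_card_fiberwise fun p _ => mem_coe.2 (mem_range.2 (hγ p))
  have h4 : 2 * H.card ≤ s * (∑ w ∈ range b, (nearSet P w).card +
      ∑ w ∈ range b, (nearSet P' w).card) := by
    rw [h3, mul_sum, ← sum_add_distrib, mul_sum]
    apply sum_le_sum
    intro w _
    refine amgm (hU w) ?_ hs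
    rw [← card_product]
    apply card_le_card
    intro p hp
    obtain ⟨hp1, hp2⟩ := mem_filter.1 hp
    rw [mem_product, ← hp2]
    exact ⟨h1 p hp1, h2 p hp1⟩
  have h5 := sum_nearSet P hP b
  have h6 := sum_nearSet P' hP' b
  have h7 : 2 * H.card ≤ 2 * (3 * r * m * s) := by
    calc 2 * H.card ≤ s * (∑ w ∈ range b, (nearSet P w).card +
          ∑ w ∈ range b, (nearSet P' w).card) := h4
      _ ≤ s * (3 * r * m + 3 * r * m) := by gcongr
      _ = 2 * (3 * r * m * s) := by ring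
  omega

end Pool.Agent.Y633.MM
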