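import Mathlib
import Pool.Agent.Y633.MM.Defs

/-! # Algebraic dependence -/

open Finset

set_option linter.unusedSectionVars false

namespace Pool.Agent.Y633.MM

section

variable {F L : Type} [Field F] [Field L] [Algebra F L]

/-- The matroid of algebraic dependence. -/
noncomputable abbrev mat (F L : Type) [Field F] [Field L] [Algebra F L] : Matroid L :=
  AlgebraicIndependent.matroid F L

lemma mem_cl {s : Set L} {a : L} :
    a ∈ (mat F L).closure s ↔ IsAlgebraic (Algebra.adjoin F s) a := by
  rw [AlgebraicIndependent.matroid_closure_eq]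
  exact Subalgebra.mem_algebraicClosure _ _

/-- The elements algebraic over a set form a field. -/
noncomputable def clF (F : Type) {L : Type} [Field F] [Field L] [Algebra F L] (s : Set L) :
    Subfield L where
  carrier := (mat F L).closure s
  mul_mem' := by
    intro a b ha hb
    rw [mem_cl] at *
    exact ha.mul hb
  one_mem' := by
    rw [mem_cl]
    exact isAlgebraic_one
  add_mem' := by
    intro a b ha hb
    rw [mem_cl] at *
    exact ha.add hb
  zero_mem' := by
    rw [mem_cl]
    exact isAlgebraic_zero
  neg_mem' := by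
    intro a ha
    rw [mem_cl] at *
    exact ha.neg
  inv_mem' := by
    intro a ha
    rw [mem_cl] at *
    exact ha.inv

lemma mem_clF {s : Set L} {a : L} : a ∈ clF F s ↔ a ∈ (mat F L).closure s := Iff.rfl

lemma subset_clF (s : Set L) : s ⊆ (clF F s : Set L) := fun a ha =>
  (mat F L).mem_closure_of_mem ha (Set.subset_univ _)

/-- A value algebraic over elements of the field is in the field. -/
lemma mem_of_range {ι : Type} {s : Set L} (f : ι → L) (hf : ∀ a, f a ∈ clF F s) {b : L}
    (hb : IsAlgebraic (Algebra.adjoin F (Set.range f)) b) : b ∈ clF F s := by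
  rw [← mem_cl] at hb
  rw [mem_clF]
  refine Matroid.closure_subset_closure_of_subset_closure ?_ hb
  rintro _ ⟨a, rfl⟩
  exact hf a

/-- Linear equations with coefficients in a subfield. -/
lemma cramer {K : Subfield L} {l : ℕ} (A : Matrix (Fin l) (Fin l) L) (hA : A.det ≠ 0)
    (hAK : ∀ a b, A a b ∈ K) (z : Fin l → L) (hz : ∀ a, A.mulVec z a ∈ K) : ∀ b, z b ∈ K := by
  let A' : Matrix (Fin l) (Fin l) K := Matrix.of fun a b => ⟨A a b, hAK a b⟩
  let r : Fin l → K := fun a => ⟨A.mulVec z a, hz a⟩
  have h1 : A'.map K.subtype = A := by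
    ext a b
    rfl
  have h2 : A'.det ≠ 0 := by
    intro h
    apply hA
    rw [← h1]
    have := RingHom.map_det K.subtype A'
    rw [h, map_zero] at this
    exact this.symm
  have h3 : A'.mulVec (A'⁻¹.mulVec r) = r := by
    rw [Matrix.mulVec_mulVec, Matrix.mul_nonsing_inv _ (Ne.isUnit h2), Matrix.one_mulVec]
  have h4 : A.mulVec (fun b => K.subtype (A'⁻¹.mulVec r b)) = A.mulVec z := by
    funext a
    have h5 := congrArg K.subtype (congrFun h3 a)
    have h6 : K.subtype (A'.mulVec (A'⁻¹.mulVec r) a) =
        A.mulVec (fun b => K.subtype (A'⁻¹.mulVec r b)) a := by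
      unfold Matrix.mulVec dotProduct
      rw [map_sum]
      apply sum_congr rfl
      intro b _
      rw [map_mul]
      rfl
    rw [← h6, h5]
    rfl
  have h7 : (fun b => K.subtype (A'⁻¹.mulVec r b)) - z = 0 := by
    apply Matrix.eq_zero_of_mulVec_eq_zero hA
    rw [Matrix.mulVec_sub, h4, sub_self]
  intro b
  have h8 := congrFun h7 b
  rw [Pi.sub_apply, Pi.zero_apply, sub_eq_zero] at h8
  rw [← h8]
  exact (A'⁻¹.mulVec r b).2

/-- The minors of a generic matrix are nonzero. -/
lemma generic_minor {σ : Type} {m l : ℕ} (x : σ → L) (hx : AlgebraicIndependent F x)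
    (v : Fin m → Fin m → σ)
    (hv : ∀ i j i' j', v i j = v i' j' → i = i' ∧ j = j') (p q : Fin l → Fin m)
    (hp : Function.Injective p) (hq : Function.Injective q) :
    (Matrix.of fun a b => x (v (p a) (q b))).det ≠ 0 := by
  classical
  have h1 : (Matrix.of fun a b => x (v (p a) (q b))) =
      (MvPolynomial.aeval x : MvPolynomial σ F →ₐ[F] L).toRingHom.mapMatrix
        (Matrix.of fun a b => MvPolynomial.X (v (p a) (q b))) := by
    ext a b
    simp
  rw [h1, ← RingHom.map_det]
  intro h0
  have h2 : (Matrix.of fun a b => (MvPolynomial.X (v (p a) (q b)) : MvPolynomial σ F)).det = 0 := by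
    apply hx
    rw [map_zero]
    exact h0
  let z : σ → F := fun w => if ∃ a, w = v (p a) (q a) then 1 else 0
  have h3 := congrArg (MvPolynomial.eval z) h2
  rw [RingHom.map_det, map_zero] at h3
  have h4 : (MvPolynomial.eval z).mapMatrix
      (Matrix.of fun a b => MvPolynomial.X (v (p a) (q b))) = (1 : Matrix (Fin l) (Fin l) F) := by
    ext a b
    simp only [RingHom.mapMatrix_apply, Matrix.map_apply, Matrix.of_apply, MvPolynomial.eval_X,
      z]
    by_cases hab : a = b
    · subst hab
      rw [if_pos ⟨a, rfl⟩, Matrix.one_apply_eq]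
    · rw [if_neg, Matrix.one_apply_ne hab]
      rintro ⟨c, hc⟩
      obtain ⟨h5, h6⟩ := hv _ _ _ _ hc
      exact hab ((hp h5).trans (hq h6).symm)
  rw [h4, Matrix.det_one] at h3
  exact one_ne_zero h3

/-- The values in `G` of a vector which is known outside `G` and whose products with enough columns
of a matrix with nonzero minors are known. -/
theorem solve {m : ℕ} (K : Subfield L) (A : Matrix (Fin m) (Fin m) L)
    (hA : ∀ (l : ℕ) (p q : Fin l → Fin m), Function.Injective p → Function.Injective q →
      (Matrix.of fun a b => A (p a) (q b)).det ≠ 0) (hAK : ∀ j k, A j k ∈ K)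
    (G U : Finset (Fin m)) (hU : G.card ≤ U.card) (z : Fin m → L) (hz : ∀ j, j ∉ G → z j ∈ K)
    (h0 : ∀ k ∈ U, ∑ j, z j * A j k ∈ K) : ∀ j, z j ∈ K := by
  classical
  obtain ⟨U', hU', hUc⟩ := exists_subset_card_eq hU
  let p : Fin G.card → Fin m := fun a => (U'.orderIsoOfFin hUc a).1
  let q : Fin G.card → Fin m := fun a => (G.orderIsoOfFin rfl a).1
  have hp : Function.Injective p := fun a b h => (U'.orderIsoOfFin hUc).injective (Subtype.ext h)
  have hq : Function.Injective q := fun a b h => (G.orderIsoOfFin rfl).injective (Subtype.ext h)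
  have hdet := hA G.card q p hq hp
  rw [← Matrix.det_transpose] at hdet
  have hG : G = univ.image q := by
    ext i
    rw [mem_image]
    constructor
    · intro hi
      refine ⟨(G.orderIsoOfFin rfl).symm ⟨i, hi⟩, mem_univ _, ?_⟩
      change ((G.orderIsoOfFin rfl) ((G.orderIsoOfFin rfl).symm ⟨i, hi⟩)).1 = i
      rw [OrderIso.apply_symm_apply]
    · rintro ⟨b, _, rfl⟩
      exact (G.orderIsoOfFin rfl b).2
  have hsol := cramer (K := K) _ hdet (fun a b => hAK _ _) (fun b => z (q b)) (by
    intro a
    have h1 := h0 (p a) (hU' (U'.orderIsoOfFin hUc a).2)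
    have h2 : ∑ j, z j * A j (p a) = ∑ j ∈ G, z j * A j (p a) +
        ∑ j ∈ Gᶜ, z j * A j (p a) := (sum_add_sum_compl G _).symm
    have h3 : ∑ j ∈ Gᶜ, z j * A j (p a) ∈ K :=
      K.sum_mem fun j hj => K.mul_mem (hz j (mem_compl.1 hj)) (hAK _ _)
    have h4 : ∑ j ∈ G, z j * A j (p a) ∈ K := by
      have : ∑ j ∈ G, z j * A j (p a) = ∑ j, z j * A j (p a) - ∑ j ∈ Gᶜ, z j * A j (p a) := by
        rw [h2]; ring
      rw [this]
      exact K.sub_mem h1 h3
    have h5 : ∑ j ∈ G, z j * A j (p a) = ∑ b, z (q b) * A (q b) (p a) := by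
      conv_lhs => rw [hG, sum_image (fun a _ b _ h => hq h)]
    rw [h5] at h4
    convert h4 using 1
    unfold Matrix.mulVec dotProduct
    apply sum_congr rfl
    intro b _
    exact mul_comm _ _)
  intro j
  by_cases hj : j ∈ G
  · rw [hG] at hj
    obtain ⟨b, _, rfl⟩ := mem_image.1 hj
    exact hsol b
  · exact hz j hj

/-- The rank of a union. -/
lemma rk_biUnion {ι : Type} (M : Matroid L) (S : Finset ι) (f : ι → Set L) :
    M.eRk (⋃ τ ∈ S, f τ) ≤ ∑ τ ∈ S, M.eRk (f τ) := by
  classical
  induction S using Finset.induction_on with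
  | empty => simp
  | insert a s ha ih =>
    rw [Finset.set_biUnion_insert, sum_insert ha]
    exact (M.eRk_union_le_eRk_add_eRk _ _).trans (by gcongr)

end

section

variable {m : ℕ} {F L : Type} [Field F] [Field L] [Algebra F L]

/-- The rank of the stored values. -/
lemma rk_stored (C : Net m) (P : Fin C.size → L) (E : Finset (Fin C.size))
    (time : Fin C.size → ℕ) (τ : ℕ) :
    (mat F L).eRk (P '' C.stored E time τ) ≤ (C.indep F P E time τ : ℕ∞) := by
  classical
  rw [Matroid.eRk_le_iff]
  intro I hI hind
  have hex : ∀ a : I, ∃ u, u ∈ C.stored E time τ ∧ P u = a := fun a => hI a.2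
  choose g hg1 hg2 using hex
  have hfin : I.Finite := ((Set.toFinite (C.stored E time τ)).image P).subset hI
  have : Fintype I := hfin.fintype
  have hginj : Function.Injective g := by
    intro a b hab
    apply Subtype.ext
    rw [← hg2 a, ← hg2 b, hab]
  have hmem : univ.image g ∈ (univ.filter fun Q : Finset (Fin C.size) =>
      (∀ u ∈ Q, u ∈ C.stored E time τ) ∧ AlgebraicIndependent F fun u : Q => P u) := by
    rw [mem_filter]
    refine ⟨mem_univ _, ?_, ?_⟩
    · intro u hu
      obtain ⟨a, _, rfl⟩ := mem_image.1 hu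
      exact hg1 a
    · have h1 : AlgebraicIndependent F (fun a : I => (a : L)) := hind
      have hQ : ∀ u : (univ.image g : Finset (Fin C.size)), ∃ a, g a = u := by
        intro u
        obtain ⟨a, _, h⟩ := mem_image.1 u.2
        exact ⟨a, h⟩
      choose f hf using hQ
      have hfinj : Function.Injective f := by
        intro u v huv
        apply Subtype.ext
        rw [← hf u, ← hf v, huv]
      have h2 := h1.comp f hfinj
      convert h2 using 1
      funext u
      simp only [Function.comp_apply]
      rw [← hg2 (f u), hf u]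
  have h1 : (univ.image g).card ≤ C.indep F P E time τ := le_sup (f := card) hmem
  rw [card_image_of_injective _ hginj, card_univ] at h1
  rw [Set.encard_eq_coe_toFinset_card, Set.toFinset_card]
  exact_mod_cast h1

end

end Pool.Agent.Y633.MM
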