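import Mathlib
import Pool.Agent.Y633.MM.Defs
import Pool.Agent.Y633.LinK.Graph

/-! # From networks to circuits with one sink for each entry of the product -/

open Finset

set_option linter.unusedSectionVars false

namespace Pool.Agent.Y633.MM

open Pool.Agent.Y633.Dep Pool.Agent.Y633.Wire Pool.Agent.Y633.Gen Pool.Agent.Y633.GenK
open Pool.Agent.Y633.LinK (ofSets ofSets_inr ofSets_inl ofSets_fanOut)

variable {m : ℕ}

/-- The number of gates of the new circuit. -/
abbrev tot (s m : ℕ) : ℕ := s + m * m

/-- The old gate `g`. -/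
def inn {s : ℕ} (m : ℕ) (g : Fin s) : Fin (tot s m) := Fin.castAdd _ g

/-- The sink for the entry `(i, k)`. -/
def snk (s : ℕ) {m : ℕ} (i k : Fin m) : Fin (tot s m) :=
  Fin.natAdd s (finProdFinEquiv (i, k))

/-- The number of a variable. -/
def vin {m : ℕ} : Var m → Fin (m * m + m * m) :=
  Sum.elim (fun p => Fin.castAdd _ (finProdFinEquiv p)) (fun p => Fin.natAdd _ (finProdFinEquiv p))

lemma vin_inj {m : ℕ} {x y : Var m} (h : vin x = vin y) : x = y := by
  rcases x with p | p <;> rcases y with q | q
  · have h1 := Fin.castAdd_injective _ _ h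
    rw [finProdFinEquiv.injective h1]
  · exfalso
    have h1 := congrArg Fin.val h
    simp only [vin, Sum.elim_inl, Sum.elim_inr, Fin.val_castAdd, Fin.val_natAdd] at h1
    have := (finProdFinEquiv p).isLt
    omega
  · exfalso
    have h1 := congrArg Fin.val h
    simp only [vin, Sum.elim_inl, Sum.elim_inr, Fin.val_castAdd, Fin.val_natAdd] at h1
    have := (finProdFinEquiv q).isLt
    omega
  · have h1 := Fin.natAdd_injective _ _ h
    rw [finProdFinEquiv.injective h1]

lemma inn_inj {s m : ℕ} {g h : Fin s} (e : inn m g = inn m h) : g = h := by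
  unfold inn at e
  exact Fin.castAdd_injective _ _ e

lemma snk_inj {s m : ℕ} {i k i' k' : Fin m} (e : snk s i k = snk s i' k') : i = i' ∧ k = k' := by
  unfold snk at e
  have h1 := finProdFinEquiv.injective (Fin.natAdd_injective _ _ e)
  rw [Prod.mk.injEq] at h1
  exact h1

lemma cases2 {s m : ℕ} (v : Fin (tot s m)) :
    (∃ g, v = inn m g) ∨ (∃ i k, v = snk s i k) := by
  refine Fin.addCases (fun g => Or.inl ⟨g, rfl⟩) (fun p => Or.inr ?_) v
  refine ⟨(finProdFinEquiv.symm p).1, (finProdFinEquiv.symm p).2, ?_⟩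
  unfold snk
  rw [Prod.mk.eta, Equiv.apply_symm_apply]

lemma inn_lt_snk {s : ℕ} (g : Fin s) (i k : Fin m) : inn m g < snk s i k := by
  rw [Fin.lt_def]
  simp only [inn, snk, Fin.val_castAdd, Fin.val_natAdd]
  have := g.isLt
  omega

lemma inn_ne_snk {s : ℕ} (g : Fin s) (i k : Fin m) : inn m g ≠ snk s i k :=
  (inn_lt_snk g i k).ne

open Classical in
/-- What the gates of the new circuit read. -/
noncomputable def srcs (C : Net m) (V : Finset (Fin m × Fin m)) :
    Fin (tot C.size m) → Finset (Fin (m * m + m * m) ⊕ Fin (tot C.size m)) :=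
  Fin.addCases
    (fun g => univ.image fun a => Sum.map vin (inn m) (C.src g a))
    (fun p => if finProdFinEquiv.symm p ∈ V then
      {Sum.inr (inn m (C.out (finProdFinEquiv.symm p).1 (finProdFinEquiv.symm p).2))} else ∅)

open Classical in
lemma srcs_inn (C : Net m) (V : Finset (Fin m × Fin m)) (g : Fin C.size) :
    srcs C V (inn m g) =
    univ.image fun a => Sum.map vin (inn m) (C.src g a) := by
  unfold srcs inn
  rw [Fin.addCases_left]

open Classical in
lemma srcs_snk (C : Net m) (V : Finset (Fin m × Fin m)) (i k : Fin m) :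
    srcs C V (snk C.size i k) = if (i, k) ∈ V then {Sum.inr (inn m (C.out i k))} else ∅ := by
  unfold srcs snk
  rw [Fin.addCases_right, Equiv.symm_apply_apply]

lemma inl_mem_inn {C : Net m} {V : Finset (Fin m × Fin m)} {g : Fin C.size} {w : Fin (m * m + m * m)} :
    Sum.inl w ∈ srcs C V (inn m g) ↔ ∃ a x, C.src g a = Sum.inl x ∧ w = vin x := by
  classical
  rw [srcs_inn, mem_image]
  constructor
  · rintro ⟨a, -, ha⟩
    rcases hs : C.src g a with x | u
    · rw [hs, Sum.map_inl, Sum.inl.injEq] at ha
      exact ⟨a, x, hs, ha.symm⟩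
    · rw [hs, Sum.map_inr] at ha
      simp at ha
  · rintro ⟨a, x, hs, rfl⟩
    exact ⟨a, mem_univ _, by rw [hs, Sum.map_inl]⟩

lemma inr_mem_inn {C : Net m} {V : Finset (Fin m × Fin m)} {g : Fin C.size} {u : Fin (tot C.size m)} :
    Sum.inr u ∈ srcs C V (inn m g) ↔ ∃ a h, C.src g a = Sum.inr h ∧ u = inn m h := by
  classical
  rw [srcs_inn, mem_image]
  constructor
  · rintro ⟨a, -, ha⟩
    rcases hs : C.src g a with x | h
    · rw [hs, Sum.map_inl] at ha
      simp at ha
    · rw [hs, Sum.map_inr, Sum.inr.injEq] at ha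
      exact ⟨a, h, hs, ha.symm⟩
  · rintro ⟨a, h, hs, rfl⟩
    exact ⟨a, mem_univ _, by rw [hs, Sum.map_inr]⟩

lemma mem_snk {C : Net m} {V : Finset (Fin m × Fin m)} {i k : Fin m}
    {x : Fin (m * m + m * m) ⊕ Fin (tot C.size m)} :
    x ∈ srcs C V (snk C.size i k) ↔ (i, k) ∈ V ∧ x = Sum.inr (inn m (C.out i k)) := by
  classical
  rw [srcs_snk]
  split_ifs with h
  · simp [h]
  · simp [h]

/-- A gate read by another gate is an old gate. -/
lemma src_inn {C : Net m} {V : Finset (Fin m × Fin m)} {u v : Fin (tot C.size m)}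
    (h : Sum.inr u ∈ srcs C V v) :
    ∃ g, u = inn m g := by
  rcases cases2 v with ⟨g, rfl⟩ | ⟨i, k, rfl⟩
  · obtain ⟨a, h', _, e⟩ := inr_mem_inn.1 h
    exact ⟨h', e⟩
  · have := (mem_snk.1 h).2
    rw [Sum.inr.injEq] at this
    exact ⟨_, this⟩

lemma srcs_acyclic (C : Net m) (V : Finset (Fin m × Fin m)) (v u : Fin (tot C.size m))
    (h : Sum.inr u ∈ srcs C V v) :
    u < v := by
  rcases cases2 v with ⟨g, rfl⟩ | ⟨i, k, rfl⟩
  · obtain ⟨a, h', h2, rfl⟩ := inr_mem_inn.1 h
    have := C.acyclic g a h' h2
    rw [Fin.lt_def] at this ⊢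
    exact this
  · have := (mem_snk.1 h).2
    rw [Sum.inr.injEq] at this
    rw [this]
    exact inn_lt_snk _ _ _

/-- The number of wires of the new circuit. -/
lemma sum_srcs (C : Net m) (V : Finset (Fin m × Fin m)) :
    ∑ v, (srcs C V v).card ≤ C.numWires + m * m := by
  classical
  have h1 : ∑ v, (srcs C V v).card = ∑ g, (srcs C V (inn m g)).card +
      ∑ p : Fin m × Fin m, (srcs C V (snk C.size p.1 p.2)).card := by
    rw [Fin.sum_univ_add]
    congr 1
    exact (Equiv.sum_comp finProdFinEquiv _).symm
  rw [h1]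
  apply Nat.add_le_add
  · unfold Net.numWires
    apply sum_le_sum
    intro g _
    rw [srcs_inn]
    refine card_image_le.trans ?_
    rw [card_univ, Fintype.card_fin]
  · have : ∀ p : Fin m × Fin m, (srcs C V (snk C.size p.1 p.2)).card ≤ 1 := by
      intro p
      rw [srcs_snk]
      split_ifs <;> simp
    refine (sum_le_sum fun p _ => this p).trans (le_of_eq ?_)
    rw [sum_const, card_univ, Fintype.card_prod, Fintype.card_fin, smul_eq_mul, mul_one]

open Classical in
lemma fan_inn (C : Net m) (V : Finset (Fin m × Fin m)) (h : Fin C.size) :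
    (univ.filter fun v => Sum.inr (inn m h) ∈ srcs C V v).card ≤ C.fanOut V h := by
  have h1 : (univ.filter fun v => Sum.inr (inn m h) ∈ srcs C V v) ⊆
      ((univ.filter fun g => ∃ a, C.src g a = Sum.inr h).image (inn m)) ∪
      ((V.filter fun p : Fin m × Fin m => C.out p.1 p.2 = h).image
        fun p => snk C.size p.1 p.2) := by
    intro v hv
    have hv' := (mem_filter.1 hv).2
    rw [mem_union, mem_image, mem_image]
    rcases cases2 v with ⟨g, rfl⟩ | ⟨i, k, rfl⟩
    · obtain ⟨a, h'', e2, e1⟩ := inr_mem_inn.1 hv'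
      have := inn_inj e1
      subst this
      exact Or.inl ⟨g, mem_filter.2 ⟨mem_univ _, a, e2⟩, rfl⟩
    · obtain ⟨e0, e1⟩ := mem_snk.1 hv'
      rw [Sum.inr.injEq] at e1
      have := inn_inj e1
      exact Or.inr ⟨(i, k), mem_filter.2 ⟨e0, this.symm⟩, rfl⟩
  have h2 : (univ.filter fun g => ∃ a, C.src g a = Sum.inr h).card ≤
      ∑ v, (univ.filter fun a => C.src v a = Sum.inr h).card := by
    rw [card_filter]
    apply sum_le_sum
    intro v _
    split_ifs with h3
    · obtain ⟨a, ha⟩ := h3
      exact card_pos.2 ⟨a, mem_filter.2 ⟨mem_univ _, ha⟩⟩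
    · exact Nat.zero_le _
  unfold Net.fanOut
  refine (card_le_card h1).trans ((card_union_le _ _).trans ?_)
  refine Nat.add_le_add (card_image_le.trans (h2.trans (le_of_eq ?_)))
    (card_image_le.trans (le_of_eq ?_))
  · apply sum_congr rfl
    intro v _
    congr 1
  · congr 1

open Classical in
lemma fan_sink (C : Net m) (V : Finset (Fin m × Fin m)) (v : Fin (tot C.size m))
    (hv : ∀ g, v ≠ inn m g) :
    (univ.filter fun w => Sum.inr v ∈ srcs C V w).card = 0 := by
  rw [card_eq_zero, filter_eq_empty_iff]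
  intro w _ h
  obtain ⟨g, hg⟩ := src_inn h
  exact hv g hg

/-- The old gates of a list. -/
def toInn {s m : ℕ} : Fin (tot s m) → Option (Fin s) := Fin.addCases some fun _ => none

lemma toInn_inn {s m : ℕ} (g : Fin s) : toInn (inn m g) = some g := by
  unfold toInn inn
  rw [Fin.addCases_left]

lemma toInn_snk {s m : ℕ} (i k : Fin m) : toInn (snk s i k) = none := by
  unfold toInn snk
  rw [Fin.addCases_right]

lemma toInn_some {s m : ℕ} {v : Fin (tot s m)} {g : Fin s} (h : toInn v = some g) :
    v = inn m g := by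
  rcases cases2 v with ⟨g', rfl⟩ | ⟨i, k, rfl⟩
  · rw [toInn_inn, Option.some.injEq] at h
    rw [h]
  · rw [toInn_snk] at h
    simp at h

lemma chain_inn (C : Net m) (V : Finset (Fin m × Fin m)) : ∀ l : List (Fin (tot C.size m)),
    l.IsChain (fun u v => Sum.inr u ∈ srcs C V v) →
    (l.filterMap toInn).IsChain (fun u v => ∃ a, C.src v a = Sum.inr u) := by
  intro l
  induction l with
  | nil => intro _; simp
  | cons w t ih =>
    intro h
    cases t with
    | nil =>
      cases hw : toInn w with
      | none => simp [hw]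
      | some g => simp [hw]
    | cons y t' =>
      rw [List.isChain_cons_cons] at h
      obtain ⟨h1, h2⟩ := h
      obtain ⟨w0, rfl⟩ := src_inn h1
      have ih' := ih h2
      rcases cases2 y with ⟨y0, rfl⟩ | ⟨i, k, rfl⟩
      · obtain ⟨a, h'', e2, e1⟩ := inr_mem_inn.1 h1
        have := inn_inj e1
        subst this
        rw [List.filterMap_cons_some (toInn_inn w0)]
        rw [List.filterMap_cons_some (toInn_inn y0)] at ih' ⊢
        rw [List.isChain_cons_cons]
        exact ⟨⟨a, e2⟩, ih'⟩
      · have ht : t' = [] := by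
          cases t' with
          | nil => rfl
          | cons z t'' =>
            rw [List.isChain_cons_cons] at h2
            obtain ⟨g, hg⟩ := src_inn h2.1
            exact absurd hg.symm (inn_ne_snk _ _ _)
        rw [ht, List.filterMap_cons_some (toInn_inn w0),
          List.filterMap_cons_none (toInn_snk i k)]
        simp

lemma countP_inn {s m : ℕ} (p : Fin (tot s m) → Prop) [DecidablePred p] (p' : Fin s → Prop)
    [DecidablePred p'] (h1 : ∀ g, p (inn m g) → p' g) (h2 : ∀ v, (∀ g, v ≠ inn m g) → ¬ p v)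
    (l : List (Fin (tot s m))) :
    l.countP (fun v => p v) ≤ (l.filterMap toInn).countP (fun g => p' g) := by
  induction l with
  | nil => simp
  | cons w t ih =>
    cases hw : toInn w with
    | none =>
      have h3 : ¬ p w := by
        apply h2
        intro g hg
        rw [hg, toInn_inn] at hw
        simp at hw
      rw [List.countP_cons_of_neg (by simpa using h3), List.filterMap_cons_none hw]
      exact ih
    | some g =>
      have hwg := toInn_some hw
      rw [List.filterMap_cons_some hw]
      by_cases h3 : p w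
      · have h4 : p' g := h1 g (by rw [← hwg]; exact h3)
        rw [List.countP_cons_of_pos (by simpa using h3), List.countP_cons_of_pos (by simpa using h4)]
        omega
      · rw [List.countP_cons_of_neg (by simpa using h3), List.countP_cons]
        omega

lemma mem_filterMap_inn {s m : ℕ} {l : List (Fin (tot s m))} {g : Fin s} :
    g ∈ l.filterMap toInn ↔ inn m g ∈ l := by
  rw [List.mem_filterMap]
  constructor
  · rintro ⟨v, hv, h⟩
    rw [← toInn_some h]
    exact hv
  · intro h
    exact ⟨_, h, toInn_inn g⟩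

/-- The times in the new circuit. -/
def time' (C : Net m) (time : Fin C.size → ℕ) : Fin (tot C.size m) → ℕ :=
  Fin.addCases (fun g => 2 * time g)
    (fun p => 2 * time (C.out (finProdFinEquiv.symm p).1 (finProdFinEquiv.symm p).2) + 1)

lemma time_inn (C : Net m) (time : Fin C.size → ℕ) (g : Fin C.size) :
    time' C time (inn m g) = 2 * time g := by
  unfold time' inn
  rw [Fin.addCases_left]

lemma time_snk (C : Net m) (time : Fin C.size → ℕ) (i k : Fin m) :
    time' C time (snk C.size i k) = 2 * time (C.out i k) + 1 := by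
  unfold time' snk
  rw [Fin.addCases_right, Equiv.symm_apply_apply]

/-- The new circuit. -/
@[reducible] noncomputable def newC (C : Net m) (V : Finset (Fin m × Fin m)) (i₀ : Fin m) :
    Circuit (m * m + m * m) 1 :=
  ofSets 1 (srcs C V) (srcs_acyclic C V) (snk C.size i₀ i₀)

end Pool.Agent.Y633.MM
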