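import Mathlib
import Pool.Agent.Y633.MM.Alg
import Pool.Agent.Y633.MM.Trans

/-! # Connectivity from algebraic independence -/

open Finset

set_option linter.unusedSectionVars false

namespace Pool.Agent.Y633.MM

open Pool.Agent.Y633.Dep Pool.Agent.Y633.Wire Pool.Agent.Y633.Gen Pool.Agent.Y633.GenK
open Pool.Agent.Y633.LinK (ofSets ofSets_inr ofSets_inl ofSets_fanOut)

variable {m : ℕ}

/-- Connectivity. -/
theorem conn {F L : Type} [Field F] [Field L] [Algebra F L] (x : Var m → L)
    (hx : AlgebraicIndependent F x) (C : Net m) (P : Fin C.size → L) (E : Finset (Fin C.size))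
    (hP : C.Computes F x P E) (V : Finset (Fin m × Fin m)) (time : Fin C.size → ℕ) (i₀ : Fin m)
    (emb : Fin m → Fin m → Var m) (hemb : ∀ i j i' j', emb i j = emb i' j' → i = i' ∧ j = j')
    (oth : Fin m → Fin m → Var m) (hoth : ∀ i j i' j', oth i j = oth i' j' → i = i' ∧ j = j')
    (hne : ∀ i j i' j', oth i j ≠ emb i' j')
    (sk : Fin m → Fin m → Fin m × Fin m)
    (S' : Finset ℕ) (I : Finset (Fin m)) (G : Fin m → Finset (Fin m))
    (R : Finset (Fin (newC C V i₀).size)) (hER : E.image (inn m) ⊆ R)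
    (k : Fin m → Finset (Fin m))
    (hkV : ∀ i ∈ I, ∀ k' ∈ k i, sk i k' ∈ V)
    (hval : ∀ i ∈ I, ∀ k' ∈ k i,
      P (C.out (sk i k').1 (sk i k').2) = ∑ j, x (emb i j) * x (oth j k'))
    (hk : ∀ i ∈ I, ∀ k' ∈ k i, ¬ Reached (cutC (newC C V i₀) (E.image (inn m)) (time' C time) S')
      (I.biUnion fun i => (G i).image fun j => vin (emb i j)) R
      (snk C.size (sk i k').1 (sk i k').2)) :
    ∑ i ∈ I, min (G i).card (k i).card ≤ R.card + ∑ τ ∈ S',
      (if τ % 2 = 1 then C.indep F P E time (τ / 2) else m * m + 1) := by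
  classical
  by_contra hcon
  push Not at hcon
  have hle : ∑ i ∈ I, min (G i).card (k i).card ≤ m * m := by
    calc ∑ i ∈ I, min (G i).card (k i).card ≤ ∑ _i ∈ I, m := by
          apply sum_le_sum
          intro i _
          refine (min_le_left _ _).trans ?_
          have := card_le_univ (G i)
          rwa [Fintype.card_fin] at this
      _ = I.card * m := by rw [sum_const, smul_eq_mul]
      _ ≤ m * m := by
          apply Nat.mul_le_mul_right
          have := card_le_univ I
          rwa [Fintype.card_fin] at this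
  -- the cuts are at odd times
  have hodd : ∀ τ ∈ S', τ % 2 = 1 := by
    intro τ hτ
    by_contra hτ2
    have h1 : m * m + 1 ≤ ∑ τ ∈ S',
        (if τ % 2 = 1 then C.indep F P E time (τ / 2) else m * m + 1) := by
      refine le_trans (le_of_eq ?_) (single_le_sum (f := fun τ => if τ % 2 = 1 then
        C.indep F P E time (τ / 2) else m * m + 1) (fun _ _ => Nat.zero_le _) hτ)
      rw [if_neg hτ2]
    omega
  obtain ⟨S, hS⟩ : ∃ S : Finset ℕ, S = S'.image fun τ => τ / 2 := ⟨_, rfl⟩
  have hSS' : ∀ τ ∈ S', τ / 2 ∈ S ∧ τ = 2 * (τ / 2) + 1 := by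
    intro τ hτ
    refine ⟨by rw [hS]; exact mem_image_of_mem _ hτ, ?_⟩
    have := hodd τ hτ
    omega
  have hsum : ∑ τ ∈ S, C.indep F P E time τ ≤
      ∑ τ ∈ S', (if τ % 2 = 1 then C.indep F P E time (τ / 2) else m * m + 1) := by
    rw [hS, sum_image]
    · apply le_of_eq
      apply sum_congr rfl
      intro τ hτ
      rw [if_pos (hodd τ hτ)]
    · intro τ hτ τ' hτ' hh
      have e1 := hodd τ hτ
      have e2 := hodd τ' hτ'
      have e3 : τ / 2 = τ' / 2 := hh
      omega
  obtain ⟨R₀, hR₀⟩ : ∃ R₀ : Finset (Fin C.size), R₀ = univ.filter fun h => inn m h ∈ R :=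
    ⟨_, rfl⟩
  have hR₀card : R₀.card ≤ R.card := by
    have : (R₀.image (inn m)).card = R₀.card :=
      card_image_of_injective _ fun _ _ h => inn_inj h
    rw [← this]
    apply card_le_card
    intro v hv
    obtain ⟨h, hh, rfl⟩ := mem_image.1 hv
    rw [hR₀] at hh
    exact (mem_filter.1 hh).2
  -- smaller sets
  have hexG : ∀ i, ∃ G' ⊆ G i, G'.card = min (G i).card (k i).card :=
    fun i => exists_subset_card_eq (min_le_left _ _)
  choose G' hG' hG'c using hexG
  obtain ⟨X, hX⟩ : ∃ X : Finset (Var m), X = I.biUnion fun i => (G' i).image (emb i) :=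
    ⟨_, rfl⟩
  have hXc : X.card = ∑ i ∈ I, min (G i).card (k i).card := by
    rw [hX, card_biUnion]
    · apply sum_congr rfl
      intro i _
      rw [card_image_of_injective, hG'c]
      intro j j' h
      exact (hemb _ _ _ _ h).2
    · intro i _ i' _ hii'
      rw [Function.onFun_apply, disjoint_left]
      intro x hx hx'
      obtain ⟨j, _, rfl⟩ := mem_image.1 hx
      obtain ⟨j', _, h⟩ := mem_image.1 hx'
      exact hii' (hemb _ _ _ _ h).1.symm
  -- the known values
  obtain ⟨Z, hZ⟩ : ∃ Z : Set L, Z = (x '' (Xᶜ : Finset (Var m))) ∪ (P '' R₀) ∪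
    ⋃ τ ∈ S, P '' C.stored E time τ := ⟨_, rfl⟩
  have hZx : ∀ z, z ∉ X → x z ∈ clF F Z := by
    intro z hz
    apply subset_clF
    rw [hZ]
    exact Or.inl (Or.inl ⟨z, by rw [mem_coe, mem_compl]; exact hz, rfl⟩)
  have hZR : ∀ u ∈ R₀, P u ∈ clF F Z := by
    intro u hu
    apply subset_clF
    rw [hZ]
    exact Or.inl (Or.inr ⟨u, hu, rfl⟩)
  have hZS : ∀ τ ∈ S, ∀ u ∈ C.stored E time τ, P u ∈ clF F Z := by
    intro τ hτ u hu
    apply subset_clF
    rw [hZ]
    exact Or.inr (Set.mem_iUnion₂.2 ⟨τ, hτ, u, hu, rfl⟩)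
  -- reached gates
  obtain ⟨Gin, hGin⟩ : ∃ Gin : Finset (Fin (m * m + m * m)),
    Gin = I.biUnion fun i => (G i).image fun j => vin (emb i j) := ⟨_, rfl⟩
  rw [← hGin] at hk
  obtain ⟨rch, hrch⟩ : ∃ rch : Fin (tot C.size m) → Prop, rch = fun v =>
    Reached (cutC (newC C V i₀) (E.image (inn m)) (time' C time) S') Gin R v := ⟨_, rfl⟩
  have hin : ∀ v w, Sum.inl w ∈ srcs C V v → w ∈ Gin → rch v := by
    intro v w hw hwG
    obtain ⟨a, ha⟩ := (ofSets_inl (q := 1) (hS := srcs_acyclic C V)
      (out := snk C.size i₀ i₀) v w).2 hw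
    rw [hrch]
    exact Reached.input (C := cutC (newC C V i₀) (E.image (inn m)) (time' C time) S')
      (G := Gin) (R := R) v a w ((midC_inl (newC C V i₀) _ _ v a w).2 ⟨ha, trivial⟩) hwG
  have hgate : ∀ v u, Sum.inr u ∈ srcs C V v → u ∉ R → rch u →
      (∀ τ ∈ S', ¬ (time' C time u ≤ τ ∧ τ < time' C time v)) → rch v := by
    intro v u hu huR hr hcross
    obtain ⟨a, ha⟩ := (ofSets_inr (q := 1) (hS := srcs_acyclic C V)
      (out := snk C.size i₀ i₀) v u).2 hu
    rw [hrch] at hr ⊢
    exact Reached.gate (C := cutC (newC C V i₀) (E.image (inn m)) (time' C time) S')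
      (G := Gin) (R := R) v a u
      ((midC_inr (newC C V i₀) _ _ v a u).2 ⟨ha, Or.inr hcross⟩) huR hr
  have hzero : ∀ b : ℕ, ∀ g : Fin C.size, g.val < b → ¬ rch (inn m g) → P g ∈ clF F Z := by
    intro b
    induction b with
    | zero => intro g hg; omega
    | succ b ih =>
      intro g hg hrg
      by_cases hgR : g ∈ R₀
      · exact hZR g hgR
      have hgE : g ∉ E := by
        intro hh
        apply hgR
        rw [hR₀]
        exact mem_filter.2 ⟨mem_univ _, hER (mem_image_of_mem _ hh)⟩
      refine mem_of_range _ ?_ (hP g hgE)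
      intro a
      rcases hs : C.src g a with z | u
      · rw [Sum.elim_inl]
        apply hZx
        intro hz
        apply hrg
        refine hin _ (vin z) (inl_mem_inn.2 ⟨a, z, hs, rfl⟩) ?_
        rw [hX, mem_biUnion] at hz
        obtain ⟨i, hi, hz⟩ := hz
        obtain ⟨j, hj, rfl⟩ := mem_image.1 hz
        rw [hGin, mem_biUnion]
        exact ⟨i, hi, mem_image.2 ⟨j, hG' i hj, rfl⟩⟩
      · rw [Sum.elim_inr]
        by_cases huR : u ∈ R₀
        · exact hZR u huR
        by_cases hcr : ∃ τ ∈ S', time' C time (inn m u) ≤ τ ∧ τ < time' C time (inn m g)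
        · obtain ⟨τ, hτ, h5, h6⟩ := hcr
          obtain ⟨h7, h8⟩ := hSS' τ hτ
          rw [time_inn] at h5 h6
          have huE : u ∉ E := by
            intro hh
            apply huR
            rw [hR₀]
            exact mem_filter.2 ⟨mem_univ _, hER (mem_image_of_mem _ hh)⟩
          exact hZS _ h7 u ⟨huE, by omega, g, a, hs, by omega⟩
        · push Not at hcr
          have hlt := C.acyclic g a u hs
          rw [Fin.lt_def] at hlt
          apply ih u (by omega)
          intro hru
          apply hrg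
          refine hgate _ _ (inr_mem_inn.2 ⟨a, u, hs, rfl⟩) ?_ hru ?_
          · intro h5
            apply huR
            rw [hR₀]
            exact mem_filter.2 ⟨mem_univ _, h5⟩
          · rintro τ hτ ⟨h5, h6⟩
            exact absurd h6 (not_lt.2 (hcr τ hτ h5))
  have hsink : ∀ i ∈ I, ∀ k' ∈ k i, P (C.out (sk i k').1 (sk i k').2) ∈ clF F Z := by
    intro i hi k' hk'
    have h1 : ¬ rch (snk C.size (sk i k').1 (sk i k').2) := by
      rw [hrch]
      exact hk i hi k' hk'
    by_cases huR : C.out (sk i k').1 (sk i k').2 ∈ R₀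
    · exact hZR _ huR
    · apply hzero _ _ (Nat.lt_succ_self _)
      intro hru
      apply h1
      refine hgate _ _ (mem_snk.2 ⟨hkV i hi k' hk', rfl⟩) ?_ hru ?_
      · intro h5
        apply huR
        rw [hR₀]
        exact mem_filter.2 ⟨mem_univ _, h5⟩
      · rintro τ hτ ⟨h5, h6⟩
        obtain ⟨h7, h8⟩ := hSS' τ hτ
        rw [time_inn] at h5
        rw [time_snk] at h6
        omega
  -- all inputs are known
  have hall : ∀ z, x z ∈ clF F Z := by
    intro z
    by_cases hz : z ∈ X
    · have hz' := hz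
      rw [hX, mem_biUnion] at hz'
      obtain ⟨i, hi, hz'⟩ := hz'
      obtain ⟨j, hj, rfl⟩ := mem_image.1 hz'
      refine solve (clF F Z) (Matrix.of fun j k => x (oth j k)) ?_ ?_ (G' i) (k i)
        (by rw [hG'c]; exact min_le_right _ _) (fun j => x (emb i j)) ?_ ?_ j
      · intro l p q hp hq
        exact generic_minor x hx oth hoth p q hp hq
      · intro j' k'
        apply hZx
        intro hmem
        rw [hX, mem_biUnion] at hmem
        obtain ⟨i', hi', hmem⟩ := hmem
        obtain ⟨j'', hj'', h⟩ := mem_image.1 hmem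
        exact hne _ _ _ _ h.symm
      · intro j' hj'
        apply hZx
        intro hmem
        rw [hX, mem_biUnion] at hmem
        obtain ⟨i', hi', hmem⟩ := hmem
        obtain ⟨j'', hj'', h⟩ := mem_image.1 hmem
        obtain ⟨e1, e2⟩ := hemb _ _ _ _ h
        subst e1
        subst e2
        exact hj' hj''
      · intro k' hk'
        have h1 := hsink i hi k' hk'
        rw [hval i hi k' hk'] at h1
        exact h1
    · exact hZx z hz
  -- counting
  have hinj : Function.Injective x := hx.injective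
  have h1 : (mat F L).Indep (Set.range x) := by
    rw [AlgebraicIndependent.matroid_indep_iff]
    exact hx.coe_range
  have h2 : ((m * m + m * m : ℕ) : ℕ∞) ≤ (mat F L).eRk Z := by
    have e1 : (mat F L).eRk (Set.range x) ≤ (mat F L).eRk ((mat F L).closure Z) := by
      apply (mat F L).eRk_mono
      rintro _ ⟨z, rfl⟩
      exact hall z
    rw [Matroid.eRk_closure_eq, h1.eRk_eq_encard] at e1
    refine le_trans (le_of_eq ?_) e1
    rw [← Set.image_univ, hinj.encard_image, Set.encard_univ, ENat.card_eq_coe_fintype_card]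
    simp
  have h3 : (mat F L).eRk Z ≤ ((Xᶜ.card + R₀.card + ∑ τ ∈ S, C.indep F P E time τ : ℕ) : ℕ∞) := by
    rw [hZ]
    refine ((mat F L).eRk_union_le_eRk_add_eRk _ _).trans ?_
    push_cast
    refine add_le_add (((mat F L).eRk_union_le_eRk_add_eRk _ _).trans (add_le_add ?_ ?_)) ?_
    · refine ((mat F L).eRk_le_encard _).trans ((Set.encard_image_le _ _).trans (le_of_eq ?_))
      rw [← Set.encard_coe_eq_coe_finsetCard, coe_compl]
    · refine ((mat F L).eRk_le_encard _).trans ((Set.encard_image_le _ _).trans (le_of_eq ?_))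
      exact Set.encard_coe_eq_coe_finsetCard _
    · refine (rk_biUnion _ _ _).trans ?_
      exact sum_le_sum fun τ _ => rk_stored C P E time τ
  have h4 : m * m + m * m ≤ Xᶜ.card + R₀.card + ∑ τ ∈ S, C.indep F P E time τ := by
    exact_mod_cast h2.trans h3
  have h5 := card_add_card_compl X
  have h6 : Fintype.card (Var m) = m * m + m * m := by
    rw [Fintype.card_sum, Fintype.card_prod, Fintype.card_fin]
  omega

end Pool.Agent.Y633.MM
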