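import Mathlib
import Pool.Agent.Y633.MF.Comb
import Pool.Agent.Y633.MM.Conn

/-! # Schedules of networks for matrix multiplication -/

open Finset

set_option linter.unusedSectionVars false

namespace Pool.Agent.Y633.MM

open Pool.Agent.Y633.MF (mf_comb)

open Pool.Agent.Y633.Dep Pool.Agent.Y633.Wire Pool.Agent.Y633.Gen Pool.Agent.Y633.GenK
open Pool.Agent.Y633.LinK (ofSets ofSets_inr ofSets_inl ofSets_fanOut)

lemma conn_left {F L : Type} [Field F] [Field L] [Algebra F L] {m : ℕ} (x : Var m → L)
    (hx : AlgebraicIndependent F x) (C : Net m) (P : Fin C.size → L) (E : Finset (Fin C.size))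
    (hP : C.Computes F x P E) (V : Finset (Fin m × Fin m)) (hprod : C.GivesProduct x P V)
    (time : Fin C.size → ℕ) (i₀ : Fin m)
    (S' : Finset ℕ) (I : Finset (Fin m)) (G : Fin m → Finset (Fin m))
    (R : Finset (Fin (newC C V i₀).size)) (hER : E.image (inn m) ⊆ R)
    (k : Fin m → Finset (Fin m)) (hkV : ∀ i ∈ I, ∀ k' ∈ k i, (i, k') ∈ V)
    (hk : ∀ i ∈ I, ∀ k' ∈ k i, ¬ Reached (cutC (newC C V i₀) (E.image (inn m)) (time' C time) S')
      (I.biUnion fun i => (G i).image fun j => vin (Sum.inl (i, j))) R (snk C.size i k')) :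
    ∑ i ∈ I, min (G i).card (k i).card ≤ R.card + ∑ τ ∈ S',
      (if τ % 2 = 1 then C.indep F P E time (τ / 2) else m * m + 1) := by
  refine conn x hx C P E hP V time i₀ (fun i j => Sum.inl (i, j)) ?_ (fun j k => Sum.inr (j, k))
    ?_ (fun _ _ _ _ => Sum.inr_ne_inl) (fun i k => (i, k))
    S' I G R hER k hkV (fun i hi k' hk' => hprod _ (hkV i hi k' hk')) hk
  · intro i j i' j' hh
    rw [Sum.inl.injEq, Prod.mk.injEq] at hh
    exact hh
  · intro i j i' j' hh
    rw [Sum.inr.injEq, Prod.mk.injEq] at hh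
    exact hh

lemma conn_right {F L : Type} [Field F] [Field L] [Algebra F L] {m : ℕ} (x : Var m → L)
    (hx : AlgebraicIndependent F x) (C : Net m) (P : Fin C.size → L) (E : Finset (Fin C.size))
    (hP : C.Computes F x P E) (V : Finset (Fin m × Fin m)) (hprod : C.GivesProduct x P V)
    (time : Fin C.size → ℕ) (i₀ : Fin m)
    (S' : Finset ℕ) (I : Finset (Fin m)) (G : Fin m → Finset (Fin m))
    (R : Finset (Fin (newC C V i₀).size)) (hER : E.image (inn m) ⊆ R)
    (k : Fin m → Finset (Fin m)) (hkV : ∀ i ∈ I, ∀ k' ∈ k i, (k', i) ∈ V)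
    (hk : ∀ i ∈ I, ∀ k' ∈ k i, ¬ Reached (cutC (newC C V i₀) (E.image (inn m)) (time' C time) S')
      (I.biUnion fun i => (G i).image fun j => vin (Sum.inr (j, i))) R (snk C.size k' i)) :
    ∑ i ∈ I, min (G i).card (k i).card ≤ R.card + ∑ τ ∈ S',
      (if τ % 2 = 1 then C.indep F P E time (τ / 2) else m * m + 1) := by
  refine conn x hx C P E hP V time i₀ (fun i j => Sum.inr (j, i)) ?_ (fun j k => Sum.inl (k, j))
    ?_ (fun _ _ _ _ => Sum.inl_ne_inr) (fun i k => (k, i))
    S' I G R hER k hkV ?_ hk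
  · intro i j i' j' hh
    rw [Sum.inr.injEq, Prod.mk.injEq] at hh
    exact hh.symm
  · intro i j i' j' hh
    rw [Sum.inl.injEq, Prod.mk.injEq] at hh
    exact hh.symm
  · intro i hi k' hk'
    rw [hprod _ (hkV i hi k' hk')]
    apply sum_congr rfl
    intro j _
    exact mul_comm _ _

theorem mm_path (D c : ℕ) (d : ℕ → ℕ) : ∃ M m₀ : ℕ, 1 ≤ M ∧
    ∀ (F L : Type) [Field F] [Field L] [Algebra F L] (m : ℕ), m₀ ≤ m → ∀ x : Var m → L,
    AlgebraicIndependent F x → ∀ (C : Net m) (P : Fin C.size → L) (E : Finset (Fin C.size)),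
    C.Computes F x P E → ∀ V : Finset (Fin m × Fin m), m * m ≤ D * V.card →
    C.GivesProduct x P V → C.numWires ≤ c * (m * m) → M * E.card ≤ m * m →
    ∀ time : Fin C.size → ℕ, (∀ v a u, C.src v a = Sum.inr u → u ∉ E → time u < time v) →
      ∃ j, 1 ≤ j ∧ j ≤ M ∧ ∃ l : List (Fin C.size),
        l.IsChain (fun u v => ∃ a, C.src v a = Sum.inr u) ∧ (∀ v ∈ l, v ∉ E) ∧
        d j < l.countP (fun v => 2 ≤ C.fanOut V v) ∧
        ∀ u ∈ l, ∀ v ∈ l, ∀ τ, time u ≤ τ → τ < time v →
          m * m < j * C.indep F P E time τ := by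
  classical
  obtain ⟨M, m₀, hM, h⟩ := mf_comb D (c + 1) d
  refine ⟨M, m₀ + 1, hM, ?_⟩
  intro F L _ _ _ m hm x hx C P E hP V hV hprod hwires hE time htime
  by_contra hcon
  push Not at hcon
  have hm1 : 0 < m := by omega
  obtain ⟨i₀, -⟩ : ∃ i₀ : Fin m, i₀ = ⟨0, hm1⟩ := ⟨_, rfl⟩
  have hfan : ∀ u : Fin (tot C.size m), (newC C V i₀).fanOut u =
      (univ.filter fun v => Sum.inr u ∈ srcs C V v).card := fun u => ofSets_fanOut u
  refine h m (m * m + m * m) 1 (by omega) (by omega) (newC C V i₀)
    ((sum_srcs C V).trans (by rw [Nat.add_mul, Nat.one_mul]; omega)) (E.image (inn m))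
    (time' C time)
    (fun τ => if τ % 2 = 1 then C.indep F P E time (τ / 2) else m * m + 1)
    (fun i j => vin (Sum.inl (i, j))) (fun i j => vin (Sum.inr (j, i)))
    (fun i k => snk C.size i k) V hV
    (by
      intro i j i' j' hh
      have := vin_inj hh
      rw [Sum.inl.injEq, Prod.mk.injEq] at this
      exact this)
    (by
      intro i j i' j' hh
      have := vin_inj hh
      rw [Sum.inr.injEq, Prod.mk.injEq] at this
      exact this.symm)
    (fun i j i' j' hh => snk_inj hh)
    (by
      intro i k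
      rw [hfan]
      exact fan_sink C V _ fun g hg => inn_ne_snk _ _ _ hg.symm)
    (by
      intro i k hik
      change 1 ≤ (srcs C V (snk C.size i k)).card
      rw [srcs_snk, if_pos hik, card_singleton])
    ((Nat.mul_le_mul_left _ card_image_le).trans hE)
    (by
      intro v a u hs hu
      have hsu : Sum.inr u ∈ srcs C V v := (ofSets_inr v u).1 ⟨a, hs⟩
      rcases cases2 v with ⟨g, rfl⟩ | ⟨i, k, rfl⟩
      · obtain ⟨b, h', h2, rfl⟩ := inr_mem_inn.1 hsu
        rw [time_inn, time_inn]
        have := htime g b h' h2 (fun hh => hu (mem_image_of_mem _ hh))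
        omega
      · have := (mem_snk.1 hsu).2
        rw [Sum.inr.injEq] at this
        rw [this, time_inn, time_snk]
        omega)
    (by
      intro j hj1 hjm l hl hlE hlen
      have hl' : l.IsChain (fun u v => Sum.inr u ∈ srcs C V v) :=
        List.IsChain.imp (fun u v huv => (ofSets_inr v u).1 huv) hl
      have hcnt := countP_inn (s := C.size) (m := m)
        (fun v => 2 ≤ (newC C V i₀).fanOut v)
        (fun g => 2 ≤ C.fanOut V g)
        (by
          intro g hg
          rw [hfan] at hg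
          exact hg.trans (fan_inn C V g))
        (by
          intro v hv h2
          rw [hfan, fan_sink C V v hv] at h2
          omega) l
      obtain ⟨u, hu, v, hv, τ, e1, e2, e3⟩ := hcon j hj1 hjm (l.filterMap toInn)
        (chain_inn C V l hl')
        (by
          intro v hv hvE
          exact hlE _ (mem_filterMap_inn.1 hv) (mem_image_of_mem _ hvE))
        (lt_of_lt_of_le hlen hcnt)
      refine ⟨_, mem_filterMap_inn.1 hu, _, mem_filterMap_inn.1 hv, 2 * τ + 1, ?_, ?_, ?_⟩
      · rw [time_inn]; omega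
      · rw [time_inn]; omega
      · beta_reduce
        rw [if_pos (by omega)]
        have : (2 * τ + 1) / 2 = τ := by omega
        rw [this]
        exact e3) ?_ ?_
  · intro S' I G R hER k hkV hk
    exact conn_left x hx C P E hP V hprod time i₀ S' I G R hER k hkV hk
  · intro S' I G R hER k hkV hk
    exact conn_right x hx C P E hP V hprod time i₀ S' I G R hER k hkV hk

lemma chain_time {s : ℕ} (time : Fin s → ℕ) (E : Finset (Fin s)) (rel : Fin s → Fin s → Prop)
    (hrel : ∀ u v, rel u v → u ∉ E → time u < time v) :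
    ∀ (t : List (Fin s)) (u : Fin s), (u :: t).IsChain rel → (∀ v ∈ u :: t, v ∉ E) →
      ∃ w ∈ u :: t, time u + t.length ≤ time w := by
  intro t
  induction t with
  | nil => intro u _ _; exact ⟨u, List.mem_cons_self, by simp⟩
  | cons v t ih =>
    intro u h hE
    rw [List.isChain_cons_cons] at h
    obtain ⟨w, hw, hle⟩ := ih v h.2 (fun x hx => hE x (List.mem_cons_of_mem _ hx))
    have := hrel u v h.1 (hE u List.mem_cons_self)
    refine ⟨w, List.mem_cons_of_mem _ hw, ?_⟩
    rw [List.length_cons]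
    omega

/-- In a layered network the number of stored values is at most the number of wires. -/
lemma layered_sum {F L : Type} [Field F] [Field L] [Algebra F L] {m : ℕ} (C : Net m)
    (P : Fin C.size → L) (E : Finset (Fin C.size)) (time : Fin C.size → ℕ)
    (h : ∀ v a u, C.src v a = Sum.inr u → u ∉ E → time v = time u + 1) (T : ℕ) :
    ∑ τ ∈ range T, C.indep F P E time τ ≤ C.numWires := by
  classical
  obtain ⟨Y, hY⟩ : ∃ Y : ℕ → Finset (Fin C.size), Y = fun τ =>
    univ.filter fun u => time u = τ ∧ ∃ v a, C.src v a = Sum.inr u := ⟨_, rfl⟩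
  have h1 : ∀ τ, C.indep F P E time τ ≤ (Y τ).card := by
    intro τ
    unfold Net.indep
    apply Finset.sup_le
    intro Q hQ
    apply card_le_card
    intro u hu
    obtain ⟨h2, h3, v, a, h4, h5⟩ := (mem_filter.1 hQ).2.1 u hu
    have := h v a u h4 h2
    rw [hY]
    exact mem_filter.2 ⟨mem_univ _, by omega, v, a, h4⟩
  have h2 : ∑ τ ∈ range T, (Y τ).card = ((range T).biUnion Y).card := by
    rw [card_biUnion]
    intro τ _ τ' _ hne
    rw [Function.onFun_apply, disjoint_left]
    intro u hu hu'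
    rw [hY] at hu hu'
    exact hne ((mem_filter.1 hu).2.1.symm.trans (mem_filter.1 hu').2.1)
  have h3 : ((range T).biUnion Y).card ≤ C.numWires := by
    have e1 : C.numWires = (univ : Finset (Σ v : Fin C.size, Fin (C.arity v))).card := by
      rw [card_univ, Fintype.card_sigma]
      unfold Net.numWires
      apply sum_congr rfl
      intro v _
      rw [Fintype.card_fin]
    rw [e1]
    have h4 : ∀ u ∈ (range T).biUnion Y, ∃ w : (Σ v : Fin C.size, Fin (C.arity v)),
        C.src w.1 w.2 = Sum.inr u := by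
      intro u hu
      obtain ⟨τ, _, hu⟩ := mem_biUnion.1 hu
      rw [hY] at hu
      obtain ⟨_, v, a, h5⟩ := (mem_filter.1 hu).2
      exact ⟨⟨v, a⟩, h5⟩
    have h5 : (univ : Finset (Σ v : Fin C.size, Fin (C.arity v))).image
        (fun w => C.src w.1 w.2) ⊇ ((range T).biUnion Y).image Sum.inr := by
      intro y hy
      obtain ⟨u, hu, rfl⟩ := mem_image.1 hy
      obtain ⟨w, hw⟩ := h4 u hu
      exact mem_image.2 ⟨w, mem_univ _, hw⟩
    rw [← card_image_of_injective ((range T).biUnion Y)
      (Sum.inr_injective : Function.Injective (Sum.inr : Fin C.size → Var m ⊕ Fin C.size))]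
    exact (card_le_card h5).trans card_image_le
  exact (sum_le_sum fun τ _ => h1 τ).trans (h2.le.trans h3)

/-- The main theorem. -/
theorem mm_bound (D c : ℕ) (d : ℕ → ℕ) : ∃ M m₀ : ℕ, 1 ≤ M ∧
    ∀ (F L : Type) [Field F] [Field L] [Algebra F L] (m : ℕ), m₀ ≤ m → ∀ x : Var m → L,
    AlgebraicIndependent F x → ∀ (C : Net m) (P : Fin C.size → L) (E : Finset (Fin C.size)),
    C.Computes F x P E → ∀ V : Finset (Fin m × Fin m), m * m ≤ D * V.card →
    C.GivesProduct x P V → C.numWires ≤ c * (m * m) → M * E.card ≤ m * m →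
    ∀ time : Fin C.size → ℕ, (∀ v a u, C.src v a = Sum.inr u → u ∉ E → time u < time v) →
      (∃ j, 1 ≤ j ∧ j ≤ M ∧ ∃ l : List (Fin C.size),
        l.IsChain (fun u v => ∃ a, C.src v a = Sum.inr u) ∧ (∀ v ∈ l, v ∉ E) ∧
        d j < l.countP (fun v => 2 ≤ C.fanOut V v) ∧
        ∀ u ∈ l, ∀ v ∈ l, ∀ τ, time u ≤ τ → τ < time v →
          m * m < j * C.indep F P E time τ) ∧
      (∀ T, (∀ v, time v ≤ T) → c * (m * m) < ∑ τ ∈ range T, C.indep F P E time τ) ∧
      ¬ ∀ v a u, C.src v a = Sum.inr u → u ∉ E → time v = time u + 1 := by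
  classical
  obtain ⟨M, m₀, hM, h⟩ := mm_path D c (fun j => d j + c * j + 1)
  refine ⟨M, m₀, hM, ?_⟩
  intro F L _ _ _ m hm x hx C P E hP V hV hprod hwires hE time htime
  obtain ⟨j, hj1, hjm, l, hl, hlE, hlen, hfat⟩ :=
    h F L m hm x hx C P E hP V hV hprod hwires hE time htime
  have hb : ∀ T, (∀ v, time v ≤ T) →
      c * (m * m) < ∑ τ ∈ range T, C.indep F P E time τ := by
    intro T hT
    have hlen2 : c * j + 1 < l.length := by
      have := List.countP_le_length (p := fun v => decide (2 ≤ C.fanOut V v)) (l := l)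
      omega
    cases l with
    | nil => simp at hlen2
    | cons u t =>
      obtain ⟨w, hw, hle⟩ := chain_time time E (fun u v => ∃ a, C.src v a = Sum.inr u)
        (fun u v ⟨a, ha⟩ hu => htime v a u ha hu) t u hl hlE
      rw [List.length_cons] at hlen2
      have h1 : ∑ _τ ∈ Ico (time u) (time w), (m * m + 1) ≤
          ∑ τ ∈ range T, j * C.indep F P E time τ := by
        refine le_trans (sum_le_sum (g := fun τ => j * C.indep F P E time τ) ?_)
          (sum_le_sum_of_subset ?_)
        · intro τ hτ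
          rw [mem_Ico] at hτ
          exact hfat u List.mem_cons_self w hw τ hτ.1 hτ.2
        · intro τ hτ
          rw [mem_Ico] at hτ
          rw [mem_range]
          exact lt_of_lt_of_le hτ.2 (hT w)
      rw [sum_const, smul_eq_mul, Nat.card_Ico, ← mul_sum] at h1
      have h2 : (c * j + 1) * (m * m + 1) ≤ (time w - time u) * (m * m + 1) :=
        Nat.mul_le_mul_right _ (by omega)
      have h3 : j * (c * (m * m)) < j * ∑ τ ∈ range T, C.indep F P E time τ := by
        refine lt_of_lt_of_le ?_ (h2.trans h1)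
        have : (c * j + 1) * (m * m + 1) = j * (c * (m * m)) + c * j + m * m + 1 := by ring
        omega
      exact Nat.lt_of_mul_lt_mul_left h3
  refine ⟨⟨j, hj1, hjm, l, hl, hlE, by omega, hfat⟩, hb, ?_⟩
  intro hlay
  have h1 := hb (univ.sup time) (fun v => le_sup (f := time) (mem_univ v))
  have h2 := layered_sum (F := F) C P E time hlay (univ.sup time)
  omega

end Pool.Agent.Y633.MM
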